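import Pool.Agent.GeoNet.Moves

set_option autoImplicit false

namespace Pool.Agent.GeoNet

/-- thin step: fixed number of letters, nontrivial. -/
def TS (W W1 : List ℝ) (k : ℕ) : Prop :=
  k = 1 ∧ ∃ X B B' Y, W = X ++ B ++ Y ∧ W1 = X ++ B' ++ Y ∧ Mv B B' ∧ B ≠ B' ∧
    B.length = B'.length ∧ (∀ x ∈ B', |x| ≤ 6 / 5)

lemma TS.le_one {W W1 : List ℝ} {k : ℕ} (h : TS W W1 k) : k ≤ 1 := h.1.le

lemma TS.bound {W W1 : List ℝ} {k : ℕ} (h : TS W W1 k) (h0 : ∀ z ∈ W, |z| ≤ 6 / 5) :
    ∀ z ∈ W1, |z| ≤ 6 / 5 := by
  obtain ⟨_, X, B, B', Y, rfl, rfl, _, _, _, hb⟩ := h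
  intro z hz
  simp only [List.mem_append] at hz h0
  rcases hz with (hz | hz) | hz
  · exact h0 z (Or.inl (Or.inl hz))
  · exact hb z hz
  · exact h0 z (Or.inr hz)

lemma TS.length {W W1 : List ℝ} {k : ℕ} (h : TS W W1 k) : W1.length = W.length := by
  obtain ⟨_, X, B, B', Y, rfl, rfl, _, _, hl, _⟩ := h
  simp [hl]

lemma TS.en {W W1 : List ℝ} {k : ℕ} (h : TS W W1 k) : En W1 = En W := by
  have hl := h.length
  obtain ⟨_, X, B, B', Y, rfl, rfl, hm, _, _, _⟩ := h
  unfold En
  rw [hl]
  simp only [csum_append, ssum_append, hm.c, hm.s]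

lemma TS.mono {W W1 : List ℝ} {k : ℕ} (h : TS W W1 k) : Q W ≤ Q W1 := by
  obtain ⟨_, X, B, B', Y, rfl, rfl, hm, _, _, _⟩ := h
  have := hm.area X Y
  have := P_nonneg B
  have := P_nonneg B'
  linarith

lemma Mv.eq_of_area_zero {B B' : List ℝ} (h : Mv B B') (hl : B.length = B'.length)
    (h0 : P B + P B' ≤ 0) (hb : ∀ z ∈ B, |z| ≤ 6 / 5) : B = B' := by
  cases B with
  | nil => exact (h.nil_iff.mp rfl).symm
  | cons b B1 =>
    have hn := h.near2 (by linarith) (x := b) (by simp) (hb b (by simp))
    have hPB := P_nonneg (b :: B1)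
    have hPB' := P_nonneg B'
    have h1 : ∀ y ∈ (b :: B1) ++ B', y = b := by
      intro y hy
      have := hn y hy b (by simp)
      have h2 : |y - b| ≤ 0 := by linarith
      have h3 := abs_nonneg (y - b)
      have h4 : |y - b| = 0 := le_antisymm h2 h3
      have h5 := abs_eq_zero.mp h4
      linarith
    have e1 : b :: B1 = List.replicate (b :: B1).length b :=
      List.eq_replicate_iff.mpr ⟨rfl, fun y hy => h1 y (List.mem_append_left _ hy)⟩
    have e2 : B' = List.replicate (b :: B1).length b :=
      List.eq_replicate_iff.mpr ⟨hl.symm, fun y hy => h1 y (List.mem_append_right _ hy)⟩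
    exact e1.trans e2.symm

lemma decouple {W W' : List ℝ} {n : ℕ} (h : Chn TS W W' n) :
    ∀ (U V U1 V1 : List ℝ) (x y : ℝ), W = U ++ V → U = U1 ++ [x] → V = y :: V1 →
      (∀ z ∈ W, |z| ≤ 6 / 5) → Q W' - Q W ≤ 1 / 20 → 20 * (Q W' - Q W) < |x - y| →
      ∃ (U' V' : List ℝ) (n1 n2 : ℕ), Chn TS U U' n1 ∧ Chn TS V V' n2 ∧ n = n1 + n2 := by
  induction h with
  | nil W =>
    intro U V U1 V1 x y _ _ _ _ _ _
    exact ⟨U, V, 0, 0, Chn.nil _, Chn.nil _, rfl⟩
  | @cons W W1 W2 k n hs hc ih =>
    intro U V U1 V1 x y hW hU hV hb hq hgap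
    have hs' := hs
    have hb1 := hs.bound hb
    obtain ⟨rfl, X, B, B', Y, hW0, hW1, hm, hne, hl, hbB⟩ := hs'
    have hmono : Q W1 ≤ Q W2 := hc.mono (fun _ _ _ h => h.mono)
    have harea := hm.area X Y
    rw [← hW0, ← hW1] at harea
    have hPB := P_nonneg B
    have hPB' := P_nonneg B'
    have hBne : B ≠ [] := by
      intro hB
      exact hne (hB.trans (hm.nil_iff.mp hB).symm)
    have hB'ne : B' ≠ [] := fun hB' => hBne (hm.nil_iff.mpr hB')
    obtain ⟨b, hbm⟩ := List.exists_mem_of_ne_nil B hBne
    have hbW : b ∈ W := by rw [hW0]; simp [hbm]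
    have hnear := hm.near2 (by linarith) (x := b) (List.mem_append_left _ hbm) (hb b hbW)
    -- position of the block
    have hcase : (∃ Z, U = X ++ B ++ Z ∧ Y = Z ++ V) ∨ (∃ Z, V = Z ++ B ++ Y ∧ X = U ++ Z) ∨
        (x ∈ B ∧ y ∈ B) := by
      have h1 : (X ++ B) ++ Y = U ++ V := by rw [← hW0, hW]
      rcases List.append_eq_append_iff.mp h1 with ⟨Z, h2, h3⟩ | ⟨Z, h2, h3⟩
      · exact Or.inl ⟨Z, h2, h3⟩
      · -- X ++ B = U ++ Z, V = Z ++ Y
        rcases List.append_eq_append_iff.mp h2 with ⟨Z2, h4, h5⟩ | ⟨Z2, h4, h5⟩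
        · -- U = X ++ Z2, B = Z2 ++ Z
          rcases List.eq_nil_or_concat Z2 with hZ2 | ⟨Z3, z, hZ2⟩
          · subst hZ2
            right; left
            refine ⟨[], ?_, ?_⟩
            · rw [h3, h5]; simp
            · rw [h4]; simp
          · cases Z with
            | nil =>
              left
              refine ⟨[], ?_, ?_⟩
              · rw [h4, h5]; simp
              · simpa using h3.symm
            | cons z' Z' =>
              right; right
              constructor
              · have h6 : U1 ++ [x] = (X ++ Z3) ++ [z] := by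
                  rw [← hU, h4, hZ2]; simp
                have h7 := List.append_inj_right' h6 rfl
                simp only [List.cons.injEq, and_true] at h7
                rw [h5, hZ2, h7]; simp
              · have h6 : y :: V1 = z' :: (Z' ++ Y) := by rw [← hV, h3]; simp
                simp only [List.cons.injEq] at h6
                rw [h5, h6.1]; simp
        · -- X = U ++ Z2, Z = Z2 ++ B
          right; left
          exact ⟨Z2, by rw [h3, h5], h4⟩
    rcases hcase with ⟨Z, hUZ, hYZ⟩ | ⟨Z, hVZ, hXZ⟩ | ⟨hxB, hyB⟩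
    · -- block in U
      have hstep : TS U (X ++ B' ++ Z) 1 := ⟨rfl, X, B, B', Z, hUZ, rfl, hm, hne, hl, hbB⟩
      have hlast : ∃ (U1' : List ℝ) (x' : ℝ), X ++ B' ++ Z = U1' ++ [x'] ∧
          |x' - x| ≤ 10 * (P B + P B') := by
        rcases List.eq_nil_or_concat Z with hZ | ⟨Z1, z, hZ⟩
        · rcases List.eq_nil_or_concat B with hB | ⟨B1, z, hB⟩
          · exact absurd hB hBne
          rcases List.eq_nil_or_concat B' with hB' | ⟨B1', z', hB'⟩
          · exact absurd hB' hB'ne
          refine ⟨X ++ B1', z', ?_, ?_⟩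
          · rw [hZ, hB']; simp
          · have h6 : U1 ++ [x] = (X ++ B1) ++ [z] := by rw [← hU, hUZ, hZ, hB]; simp
            have h7 := List.append_inj_right' h6 rfl
            simp only [List.cons.injEq, and_true] at h7
            rw [h7]
            exact hnear z' (by rw [hB']; simp) z (by rw [hB]; simp)
        · refine ⟨X ++ B' ++ Z1, z, by rw [hZ]; simp, ?_⟩
          have h6 : U1 ++ [x] = (X ++ B ++ Z1) ++ [z] := by rw [← hU, hUZ, hZ]; simp
          have h7 := List.append_inj_right' h6 rfl
          simp only [List.cons.injEq, and_true] at h7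
          rw [h7]; simp; linarith
      obtain ⟨U1', x', hU', hx'⟩ := hlast
      have hgap' : 20 * (Q W2 - Q W1) < |x' - y| := by
        have h6 : |x - y| ≤ |x' - x| + |x' - y| := by
          have := abs_sub_le x x' y
          rw [abs_sub_comm x x'] at this; exact this
        linarith
      obtain ⟨U', V', n1, n2, h7, h8, h9⟩ := ih (X ++ B' ++ Z) V U1' V1 x' y
        (by rw [hW1, hYZ]; simp) hU' hV hb1 (by linarith) hgap'
      exact ⟨U', V', 1 + n1, n2, Chn.cons hstep h7, h8, by omega⟩
    · -- block in V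
      have hstep : TS V (Z ++ B' ++ Y) 1 := ⟨rfl, Z, B, B', Y, hVZ, rfl, hm, hne, hl, hbB⟩
      have hfirst : ∃ (V1' : List ℝ) (y' : ℝ), Z ++ B' ++ Y = y' :: V1' ∧
          |y' - y| ≤ 10 * (P B + P B') := by
        cases Z with
        | nil =>
          cases B with
          | nil => exact absurd rfl hBne
          | cons z B1 =>
            cases B' with
            | nil => exact absurd rfl hB'ne
            | cons z' B1' =>
              refine ⟨B1' ++ Y, z', by simp, ?_⟩
              have h6 : y :: V1 = z :: (B1 ++ Y) := by rw [← hV, hVZ]; simp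
              simp only [List.cons.injEq] at h6
              rw [h6.1]
              exact hnear z' (by simp) z (by simp)
        | cons z Z1 =>
          refine ⟨Z1 ++ B' ++ Y, z, by simp, ?_⟩
          have h6 : y :: V1 = z :: (Z1 ++ B ++ Y) := by rw [← hV, hVZ]; simp
          simp only [List.cons.injEq] at h6
          rw [h6.1]; simp; linarith
      obtain ⟨V1', y', hV', hy'⟩ := hfirst
      have hgap' : 20 * (Q W2 - Q W1) < |x - y'| := by
        have h6 : |x - y| ≤ |x - y'| + |y' - y| := abs_sub_le x y' y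
        linarith
      obtain ⟨U', V', n1, n2, h7, h8, h9⟩ := ih U (Z ++ B' ++ Y) U1 V1' x y'
        (by rw [hW1, hXZ]; simp) hU hV' hb1 (by linarith) hgap'
      exact ⟨U', V', n1, 1 + n2, h7, Chn.cons hstep h8, by omega⟩
    · -- straddling block: impossible
      exfalso
      have h6 := hnear x (List.mem_append_left _ hxB) y (List.mem_append_left _ hyB)
      linarith

lemma adj_gap (g : ℝ) : ∀ (L : List ℝ) (a : ℝ),
    (∀ U x y V, a :: L = U ++ x :: y :: V → |x - y| ≤ g) → ∀ p ∈ a :: L, |p - a| ≤ L.length * g := by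
  intro L
  induction L with
  | nil =>
    intro a _ p hp
    simp only [List.mem_singleton] at hp
    simp [hp]
  | cons b L ih =>
    intro a h p hp
    have hab : |a - b| ≤ g := h [] a b L rfl
    have hg : 0 ≤ g := (abs_nonneg _).trans hab
    rcases List.mem_cons.mp hp with rfl | hp
    · simp; positivity
    · have h1 := ih b (fun U x y V hE => h (a :: U) x y V (by rw [hE]; rfl)) p hp
      have h2 : |p - a| ≤ |p - b| + |a - b| := by
        have := abs_sub_le p b a
        rw [abs_sub_comm b a] at this; exact this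
      simp only [List.length_cons]
      push_cast
      linarith

lemma exists_gap {W : List ℝ} {p q D : ℝ} (hp : p ∈ W) (hq : q ∈ W) (hD0 : 0 ≤ D)
    (hD : D < |p - q|) :
    ∃ U x y V, W = U ++ x :: y :: V ∧ D < 2 * W.length * |x - y| := by
  by_contra hcon
  push Not at hcon
  cases W with
  | nil => simp at hp
  | cons a L =>
    have hn : (0 : ℝ) < 2 * ((a :: L).length : ℝ) := by
      simp only [List.length_cons]; push_cast; positivity
    have h1 : ∀ U x y V, a :: L = U ++ x :: y :: V → |x - y| ≤ D / (2 * ((a :: L).length : ℝ)) := by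
      intro U x y V hE
      rw [le_div_iff₀ hn]
      have := hcon U x y V hE
      linarith
    have h2 := adj_gap _ L a h1 p hp
    have h3 := adj_gap _ L a h1 q hq
    have h4 : |p - q| ≤ |p - a| + |q - a| := by
      have := abs_sub_le p a q
      rw [abs_sub_comm a q] at this; exact this
    have h5 : (L.length : ℝ) * (D / (2 * ((a :: L).length : ℝ))) ≤ D / 2 := by
      rw [mul_div_assoc', div_le_div_iff₀ hn (by norm_num)]
      simp only [List.length_cons]
      push_cast
      nlinarith
    linarith

/-- bounds of letters by the energy -/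
lemma sub_sq_le_En {W : List ℝ} (hb : ∀ z ∈ W, |z| ≤ 6 / 5) {x y : ℝ} (hx : x ∈ W) (hy : y ∈ W) :
    (x - y) ^ 2 ≤ 9 * En W := by
  have h1 := df_le_En hx hy
  have h2 := cross_sq x y
  have h3 := df_nonneg x y
  have h4 : (16 / 25 : ℝ) ≤ co x := le_co (hb x hx) (by norm_num) (by norm_num)
  have h5 : (16 / 25 : ℝ) ≤ co y := le_co (hb y hy) (by norm_num) (by norm_num)
  have h6 : (16 / 25 : ℝ) * (16 / 25) ≤ co x * co y :=
    mul_le_mul h4 h5 (by norm_num) (co_pos x).le
  have h7 : (1 / 9 : ℝ) ≤ (co x * co y) ^ 2 := by nlinarith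
  have h8 : (y - x) ^ 2 * (1 / 9) ≤ ((y - x) * (co x * co y)) ^ 2 := by
    rw [mul_pow]
    exact mul_le_mul_of_nonneg_left h7 (sq_nonneg _)
  nlinarith

lemma abs_sub_le_En {W : List ℝ} (hb : ∀ z ∈ W, |z| ≤ 6 / 5) {x y : ℝ} (hx : x ∈ W) (hy : y ∈ W) :
    |x - y| ≤ 3 * Real.sqrt (En W) := by
  have h1 := sub_sq_le_En hb hx hy
  have h2 := En_nonneg W
  apply abs_le_of_sq_le_sq _ (by positivity)
  rw [mul_pow, Real.sq_sqrt h2]
  linarith

lemma Dv_le {a D : ℝ} {L : List ℝ} (h : ∀ x ∈ L, |x - a| ≤ D) :
    Dv a L ≤ L.length * D := by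
  induction L with
  | nil => simp
  | cons b L ih =>
    rw [Dv_cons, List.length_cons]
    have h1 := ih (fun x hx => h x (List.mem_cons_of_mem _ hx))
    have h2 := h b (by simp)
    have h3 : |b - a| * (co a * co b) ≤ D := by
      have e1 := co_le_one a
      have e2 := co_le_one b
      have e3 := co_pos a
      have e4 := co_pos b
      have e5 : co a * co b ≤ 1 := by nlinarith
      have e6 := abs_nonneg (b - a)
      calc |b - a| * (co a * co b) ≤ |b - a| * 1 := by gcongr
        _ ≤ D := by linarith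
    push_cast
    linarith

lemma P_le {D : ℝ} {L : List ℝ} (hD : 0 ≤ D) (h : ∀ x ∈ L, ∀ y ∈ L, |x - y| ≤ D) :
    P L ≤ (L.length : ℝ) ^ 2 * D := by
  induction L with
  | nil => simp
  | cons a L ih =>
    rw [P_cons, List.length_cons]
    have h1 := ih (fun x hx y hy => h x (List.mem_cons_of_mem _ hx) y (List.mem_cons_of_mem _ hy))
    have h2 := Dv_le (a := a) (L := L) (fun x hx => h x (List.mem_cons_of_mem _ hx) a (by simp))
    have h3 : (0 : ℝ) ≤ L.length := Nat.cast_nonneg _
    push_cast
    nlinarith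

lemma Dd_le {a D : ℝ} {L : List ℝ} (ha : |a| ≤ 6 / 5) (hL : ∀ x ∈ L, |x| ≤ 6 / 5)
    (h : ∀ x ∈ L, |x - a| ≤ D) : Dd a L ≤ L.length * (2 * D ^ 2) := by
  induction L with
  | nil => simp
  | cons b L ih =>
    rw [Dd_cons, List.length_cons]
    have h1 := ih (fun x hx => hL x (List.mem_cons_of_mem _ hx))
      (fun x hx => h x (List.mem_cons_of_mem _ hx))
    have h2 := h b (by simp)
    have hb := hL b (by simp)
    have h3 : df a b ≤ 2 * D ^ 2 := by
      have e1 := co_le_one a
      have e2 := co_le_one b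
      have e3 := co_pos a
      have e4 := co_pos b
      have e5 : co a * co b ≤ 1 := by nlinarith
      have e0 : 0 < co a * co b := mul_pos e3 e4
      have e6 := cross_sq a b
      have e7 := df_nonneg a b
      rw [abs_le] at ha hb
      have e8 : -(36 / 25 : ℝ) ≤ a * b := by nlinarith
      have e9 : (14 / 25 : ℝ) ≤ 2 - df a b := by
        rw [df_eq]
        nlinarith
      have e10 : ((b - a) * (co a * co b)) ^ 2 ≤ D ^ 2 := by
        rw [mul_pow]
        have e11 : (b - a) ^ 2 ≤ D ^ 2 := by
          rw [← sq_abs]; exact pow_le_pow_left₀ (abs_nonneg _) h2 2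
        have e12 : (co a * co b) ^ 2 ≤ 1 := by nlinarith
        nlinarith [sq_nonneg (b - a), sq_nonneg (co a * co b)]
      nlinarith
    push_cast
    linarith

lemma En_le {D : ℝ} {L : List ℝ} (_hD : 0 ≤ D) (hL : ∀ x ∈ L, |x| ≤ 6 / 5)
    (h : ∀ x ∈ L, ∀ y ∈ L, |x - y| ≤ D) : En L ≤ (L.length : ℝ) ^ 2 * (2 * D ^ 2) := by
  induction L with
  | nil => simp
  | cons a L ih =>
    rw [En_cons, List.length_cons]
    have h1 := ih (fun x hx => hL x (List.mem_cons_of_mem _ hx))
      (fun x hx y hy => h x (List.mem_cons_of_mem _ hx) y (List.mem_cons_of_mem _ hy))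
    have h2 := Dd_le (a := a) (L := L) (hL a (by simp))
      (fun x hx => hL x (List.mem_cons_of_mem _ hx))
      (fun x hx => h x (List.mem_cons_of_mem _ hx) a (by simp))
    have h3 : (0 : ℝ) ≤ L.length := Nat.cast_nonneg _
    have h4 := sq_nonneg D
    push_cast
    nlinarith

/-- **Collision lemma.** The number of nontrivial thin moves on words of bounded length is
bounded. -/
theorem fixedLen : ∀ m : ℕ, ∃ G : ℕ, ∀ k ≤ m, ∀ (W W' : List ℝ) (n : ℕ), W.length = k →
    (∀ z ∈ W, |z| ≤ 6 / 5) → Chn TS W W' n → n ≤ G := by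
  intro m
  induction m with
  | zero =>
    refine ⟨0, ?_⟩
    intro k hk W W' n hW _ h
    have hW0 : W = [] := by
      apply List.length_eq_zero_iff.mp; omega
    subst hW0
    cases h with
    | nil => exact le_refl _
    | cons hs hc =>
      exfalso
      obtain ⟨_, X, B, B', Y, h1, _, _, hne, hl, _⟩ := hs
      have hB : B = [] := by
        have := congrArg List.length h1
        simp at this
        apply List.length_eq_zero_iff.mp
        omega
      subst hB
      apply hne
      symm
      apply List.length_eq_zero_iff.mp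
      rw [← hl]; rfl
  | succ m ih =>
    obtain ⟨G, hG⟩ := ih
    refine ⟨(2 * G + 1) * (480 * (m + 1) ^ 4 + 1), ?_⟩
    intro k hk W W' n hW hb h
    by_cases hkm : k ≤ m
    · have h1 := hG k hkm W W' n hW hb h
      have h2 : G ≤ 2 * G + 1 := by omega
      calc n ≤ 2 * G + 1 := h1.trans h2
        _ ≤ _ := Nat.le_mul_of_pos_right _ (by positivity)
    · have hk' : k = m + 1 := by omega
      subst hk'
      set E := En W with hE
      have hE0 : 0 ≤ E := En_nonneg W
      have hm1 : (1 : ℝ) ≤ (m + 1 : ℝ) := by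
        have : (0 : ℝ) ≤ m := Nat.cast_nonneg _
        linarith
      have hEle : E ≤ (m + 1 : ℝ) ^ 2 := by
        rw [hE]; unfold En; rw [hW]; push_cast
        nlinarith [sq_nonneg (csum W), sq_nonneg (ssum W)]
      -- invariant
      let I : List ℝ → Prop := fun V => V.length = m + 1 ∧ (∀ z ∈ V, |z| ≤ 6 / 5) ∧ En V = E
      have hI : ∀ V V1 k, TS V V1 k → I V → I V1 := by
        intro V V1 k hs hV
        exact ⟨by rw [hs.length]; exact hV.1, hs.bound hV.2.1, by rw [hs.en]; exact hV.2.2⟩
      have hIW : I W := ⟨hW, hb, rfl⟩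
      have hQ : ∀ V, I V → |Q V| ≤ (m + 1 : ℝ) ^ 2 * (3 * Real.sqrt E) := by
        intro V hV
        have h1 := abs_Q_le_P V
        have h2 := P_le (D := 3 * Real.sqrt E) (L := V) (by positivity) (fun x hx y hy => by
          have := abs_sub_le_En hV.2.1 hx hy
          rw [hV.2.2] at this; exact this)
        rw [hV.1] at h2; push_cast at h2
        linarith
      have hI' : I W' := h.inv hI hIW
      have hQW := hQ W hIW
      have hQW' := hQ W' hI'
      rw [abs_le] at hQW hQW'
      rcases hE0.eq_or_lt with hE0' | hEpos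
      · -- zero energy
        cases h with
        | nil => positivity
        | @cons _ W1 _ k n hs hc =>
          exfalso
          have hI1 : I W1 := hI _ _ _ hs hIW
          have hQ1 := hQ W1 hI1
          rw [abs_le] at hQ1
          obtain ⟨_, X, B, B', Y, h1, h2, hmv, hne, hl, _⟩ := hs
          have harea := hmv.area X Y
          rw [← h1, ← h2] at harea
          rw [← hE0'] at hQW hQ1
          simp at hQW hQ1
          apply hne
          apply hmv.eq_of_area_zero hl
          · linarith
          · intro z hz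
            apply hb
            rw [h1]; simp [hz]
      · have hs0 : 0 < Real.sqrt E := Real.sqrt_pos.mpr hEpos
        have hsle : Real.sqrt E ≤ (m + 1 : ℝ) := by
          rw [show (m + 1 : ℝ) = Real.sqrt ((m + 1 : ℝ) ^ 2) from
            (Real.sqrt_sq (by linarith)).symm]
          exact Real.sqrt_le_sqrt hEle
        set δ := Real.sqrt E / (80 * (m + 1 : ℝ) ^ 2) with hδ
        have hδpos : 0 < δ := by positivity
        have hδle : δ ≤ 1 / 20 := by
          rw [hδ, div_le_div_iff₀ (by positivity) (by norm_num)]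
          nlinarith
        have hrun : ∀ V V' n, I V → Chn TS V V' n → Q V' - Q V < δ → n ≤ 2 * G := by
          intro V V' n hV hc hlt
          have hex : ∃ p ∈ V, ∃ q ∈ V, Real.sqrt E / (2 * (m + 1 : ℝ)) < |p - q| := by
            by_contra hcon
            push Not at hcon
            have h1 := En_le (D := Real.sqrt E / (2 * (m + 1 : ℝ))) (by positivity) hV.2.1
              (fun x hx y hy => hcon x hx y hy)
            rw [hV.2.2, hV.1] at h1
            push_cast at h1
            have h2 : (m + 1 : ℝ) ^ 2 * (2 * (Real.sqrt E / (2 * (m + 1 : ℝ))) ^ 2) = E / 2 := by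
              rw [div_pow, Real.sq_sqrt hE0]
              field_simp
            rw [h2] at h1
            linarith
          obtain ⟨p, hp, q, hq, hpq⟩ := hex
          obtain ⟨U, x, y, Y, hU, hxy⟩ := exists_gap hp hq (by positivity) hpq
          have hlen : U.length + 1 + (Y.length + 1) = m + 1 := by
            have := hV.1
            rw [hU] at this
            simp at this
            omega
          have hgap : 20 * (Q V' - Q V) < |x - y| := by
            rw [hV.1] at hxy
            push_cast at hxy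
            have h3 : 20 * δ = (Real.sqrt E / (2 * (m + 1 : ℝ))) / (2 * (m + 1 : ℝ)) := by
              rw [hδ]; field_simp; ring
            have h4 : (Real.sqrt E / (2 * (m + 1 : ℝ))) / (2 * (m + 1 : ℝ)) < |x - y| := by
              rw [div_lt_iff₀ (by positivity)]
              linarith
            linarith
          obtain ⟨U', V'', n1, n2, h5, h6, h7⟩ := decouple hc (U ++ [x]) (y :: Y) U Y x y
            (by rw [hU]; simp) rfl rfl hV.2.1 (by linarith) hgap
          have h8 := hG (U ++ [x]).length (by simp; omega) (U ++ [x]) U' n1 rfl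
            (fun z hz => hV.2.1 z (by
              rw [hU]; simp at hz ⊢; rcases hz with hz | hz <;> simp [hz])) h5
          have h9 := hG (y :: Y).length (by simp; omega) (y :: Y) V'' n2 rfl
            (fun z hz => hV.2.1 z (by
              rw [hU]; simp at hz ⊢; rcases hz with hz | hz <;> simp [hz])) h6
          omega
        have htot : Q W' - Q W < ((480 * (m + 1) ^ 4 + 1 : ℕ) : ℝ) * δ := by
          push_cast
          have h1 : (480 * (m + 1 : ℝ) ^ 4) * δ = 6 * (m + 1 : ℝ) ^ 2 * Real.sqrt E := by
            rw [hδ]; field_simp; ring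
          have h2 : (480 * (m + 1 : ℝ) ^ 4 + 1) * δ = (480 * (m + 1 : ℝ) ^ 4) * δ + δ := by ring
          rw [h2, h1]
          linarith [hQW.1, hQW'.2]
        exact Chn.runs I Q (2 * G) δ (fun _ _ _ h => h.le_one) hI (fun _ _ _ h => h.mono) hrun
          _ W W' n hIW h htot

end Pool.Agent.GeoNet
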