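import Pool.Agent.GeoNet.Sweep

set_option autoImplicit false

open Classical

namespace Pool.Agent.GeoNet

abbrev Pl := EuclideanSpace ℝ (Fin 2)

lemma co_div_pos {u w ρ : ℝ} (hu : 0 < u) (hρ : 0 < ρ) (h : u ^ 2 + w ^ 2 = ρ ^ 2) :
    co (w / u) = u / ρ := by
  unfold co
  have h1 : Real.sqrt (1 + (w / u) ^ 2) = ρ / u := by
    rw [Real.sqrt_eq_iff_mul_self_eq (by positivity) (by positivity)]
    field_simp
    nlinarith
  rw [h1]
  field_simp

lemma si_div_pos {u w ρ : ℝ} (hu : 0 < u) (hρ : 0 < ρ) (h : u ^ 2 + w ^ 2 = ρ ^ 2) :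
    si (w / u) = w / ρ := by
  unfold si
  rw [co_div_pos hu hρ h]
  field_simp

lemma co_div_neg {u w ρ : ℝ} (hu : u < 0) (hρ : 0 < ρ) (h : u ^ 2 + w ^ 2 = ρ ^ 2) :
    co (w / u) = - (u / ρ) := by
  have := co_div_pos (u := -u) (w := -w) (by linarith) hρ (by rw [← h]; ring)
  rw [neg_div_neg_eq] at this
  rw [this]; ring

lemma si_div_neg {u w ρ : ℝ} (hu : u < 0) (hρ : 0 < ρ) (h : u ^ 2 + w ^ 2 = ρ ^ 2) :
    si (w / u) = - (w / ρ) := by
  have := si_div_pos (u := -u) (w := -w) (by linarith) hρ (by rw [← h]; ring)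
  rw [neg_div_neg_eq] at this
  rw [this]; ring

/-- Data: vertices, adjacency, balancing rays, and a frame in which nothing is vertical. -/
structure Fr (κ : Type) [Fintype κ] where
  x : Pl →ₗ[ℝ] ℝ
  y : Pl →ₗ[ℝ] ℝ
  hxy : ∀ p, x p ^ 2 + y p ^ 2 = ‖p‖ ^ 2
  V : Finset Pl
  Adj : Pl → Pl → Prop
  symm : ∀ p q, Adj p q → Adj q p
  mem : ∀ p q, Adj p q → p ∈ V ∧ q ∈ V
  hx : ∀ p q, Adj p q → x (q - p) ≠ 0
  base : κ → Pl
  hbase : ∀ k, base k ∈ V
  r : κ → Pl
  hr : ∀ k, ‖r k‖ = 1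
  hrx : ∀ k, x (r k) ≠ 0
  bal : ∀ v ∈ V, ∑ q ∈ V with Adj v q, ‖q - v‖⁻¹ • (q - v) + ∑ k with base k = v, r k = 0

namespace Fr

variable {κ : Type} [Fintype κ] (S : Fr κ)

lemma inj {p q : Pl} (h1 : S.x p = S.x q) (h2 : S.y p = S.y q) : p = q := by
  have h3 := S.hxy (p - q)
  rw [map_sub, map_sub, h1, h2] at h3
  have h4 : ‖p - q‖ = 0 := by
    have : ‖p - q‖ ^ 2 = 0 := by rw [← h3]; ring
    exact pow_eq_zero_iff (two_ne_zero) |>.mp this
  exact sub_eq_zero.mp (norm_eq_zero.mp h4)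

noncomputable def X : ℝ := 1 + ∑ v ∈ S.V, |S.x v|

lemma abs_lt_X {v : Pl} (hv : v ∈ S.V) : |S.x v| < S.X := by
  unfold X
  have := Finset.single_le_sum (f := fun v => |S.x v|) (fun i _ => abs_nonneg _) hv
  linarith

noncomputable def E' : Finset (Pl × Pl) :=
  (S.V ×ˢ S.V).filter (fun p => S.Adj p.1 p.2 ∧ S.x p.1 < S.x p.2)

lemma mem_E' {p : Pl × Pl} (h : p ∈ S.E') :
    p.1 ∈ S.V ∧ p.2 ∈ S.V ∧ S.Adj p.1 p.2 ∧ S.x p.1 < S.x p.2 := by
  unfold E' at h
  rw [Finset.mem_filter, Finset.mem_product] at h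
  exact ⟨h.1.1, h.1.2, h.2.1, h.2.2⟩

abbrev Ix := {p : Pl × Pl // p ∈ S.E'} ⊕ κ

noncomputable def fa : S.Ix → ℝ :=
  Sum.elim (fun p => S.x p.1.1) (fun k => if 0 < S.x (S.r k) then S.x (S.base k) else -S.X)
noncomputable def fb : S.Ix → ℝ :=
  Sum.elim (fun p => S.x p.1.2) (fun k => if 0 < S.x (S.r k) then S.X else S.x (S.base k))
noncomputable def fs : S.Ix → ℝ :=
  Sum.elim (fun p => S.y (p.1.2 - p.1.1) / S.x (p.1.2 - p.1.1))
    (fun k => S.y (S.r k) / S.x (S.r k))
noncomputable def ft : S.Ix → ℝ :=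
  Sum.elim (fun p => S.y p.1.1 - S.y (p.1.2 - p.1.1) / S.x (p.1.2 - p.1.1) * S.x p.1.1)
    (fun k => S.y (S.base k) - S.y (S.r k) / S.x (S.r k) * S.x (S.base k))

lemma line_left (p q : Pl) :
    S.y (q - p) / S.x (q - p) * S.x p + (S.y p - S.y (q - p) / S.x (q - p) * S.x p) = S.y p := by
  ring

lemma line_right {p q : Pl} (h : S.x (q - p) ≠ 0) :
    S.y (q - p) / S.x (q - p) * S.x q + (S.y p - S.y (q - p) / S.x (q - p) * S.x p) = S.y q := by
  have h1 : S.y (q - p) / S.x (q - p) * S.x q - S.y (q - p) / S.x (q - p) * S.x p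
      = S.y (q - p) := by
    rw [← mul_sub, ← map_sub]
    field_simp
  have h2 : S.y (q - p) = S.y q - S.y p := map_sub _ _ _
  linarith

lemma bal_aux (f : ℝ → ℝ) (g : Pl →ₗ[ℝ] ℝ)
    (hpos : ∀ d, 0 < S.x d → f (S.y d / S.x d) = g d / ‖d‖)
    (hneg : ∀ d, S.x d < 0 → f (S.y d / S.x d) = - (g d / ‖d‖))
    (X0 Y0 : ℝ) (h1 : -S.X < X0) (h2 : X0 < S.X) :
    ∑ i with (S.fa i = X0 ∧ S.fs i * X0 + S.ft i = Y0), f (S.fs i) =
    ∑ i with (S.fb i = X0 ∧ S.fs i * X0 + S.ft i = Y0), f (S.fs i) := by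
  rw [Finset.sum_filter, Finset.sum_filter, Fintype.sum_sum_type, Fintype.sum_sum_type]
  by_cases hv : ∃ v ∈ S.V, S.x v = X0 ∧ S.y v = Y0
  · obtain ⟨v, hvV, rfl, rfl⟩ := hv
    -- left edges part
    have L1 : ∑ p : {p : Pl × Pl // p ∈ S.E'},
        (if (S.fa (Sum.inl p) = S.x v ∧ S.fs (Sum.inl p) * S.x v + S.ft (Sum.inl p) = S.y v) then
          f (S.fs (Sum.inl p)) else 0) =
        ∑ q ∈ S.V, if (S.Adj v q ∧ S.x v < S.x q) then g (q - v) / ‖q - v‖ else 0 := by
      have e1 : ∀ p : {p : Pl × Pl // p ∈ S.E'},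
          (if (S.fa (Sum.inl p) = S.x v ∧ S.fs (Sum.inl p) * S.x v + S.ft (Sum.inl p) = S.y v) then
          f (S.fs (Sum.inl p)) else 0) =
          (fun p : Pl × Pl => if p.1 = v then g (p.2 - p.1) / ‖p.2 - p.1‖ else 0) p := by
        intro p
        obtain ⟨hp1, hp2, hp3, hp4⟩ := S.mem_E' p.2
        have hx0 : 0 < S.x (p.1.2 - p.1.1) := by rw [map_sub]; linarith
        simp only [fa, fs, ft, Sum.elim_inl]
        by_cases hc : p.1.1 = v
        · rw [if_pos, if_pos hc, hpos _ hx0]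
          rw [← hc]
          exact ⟨rfl, S.line_left _ _⟩
        · rw [if_neg, if_neg hc]
          rintro ⟨e1, e2⟩
          rw [← e1, S.line_left] at e2
          exact hc (S.inj e1 e2)
      rw [Finset.sum_congr rfl (fun p _ => e1 p),
        Finset.sum_coe_sort S.E' (fun p : Pl × Pl =>
          if p.1 = v then g (p.2 - p.1) / ‖p.2 - p.1‖ else 0)]
      unfold E'
      rw [Finset.sum_filter, Finset.sum_product, Finset.sum_eq_single v]
      · apply Finset.sum_congr rfl
        intro q _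
        simp
      · intro b _ hb
        apply Finset.sum_eq_zero
        intro q _
        simp [hb]
      · intro h; exact absurd hvV h
    have R1 : ∑ p : {p : Pl × Pl // p ∈ S.E'},
        (if (S.fb (Sum.inl p) = S.x v ∧ S.fs (Sum.inl p) * S.x v + S.ft (Sum.inl p) = S.y v) then
          f (S.fs (Sum.inl p)) else 0) =
        ∑ q ∈ S.V, if (S.Adj v q ∧ S.x q < S.x v) then - (g (q - v) / ‖q - v‖) else 0 := by
      have e1 : ∀ p : {p : Pl × Pl // p ∈ S.E'},
          (if (S.fb (Sum.inl p) = S.x v ∧ S.fs (Sum.inl p) * S.x v + S.ft (Sum.inl p) = S.y v) then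
          f (S.fs (Sum.inl p)) else 0) =
          (fun p : Pl × Pl => if p.2 = v then g (p.2 - p.1) / ‖p.2 - p.1‖ else 0) p := by
        intro p
        obtain ⟨hp1, hp2, hp3, hp4⟩ := S.mem_E' p.2
        have hx0 : 0 < S.x (p.1.2 - p.1.1) := by rw [map_sub]; linarith
        simp only [fb, fs, ft, Sum.elim_inl]
        by_cases hc : p.1.2 = v
        · rw [if_pos, if_pos hc, hpos _ hx0]
          rw [← hc]
          exact ⟨rfl, S.line_right hx0.ne'⟩
        · rw [if_neg, if_neg hc]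
          rintro ⟨e1, e2⟩
          rw [← e1, S.line_right hx0.ne'] at e2
          exact hc (S.inj e1 e2)
      rw [Finset.sum_congr rfl (fun p _ => e1 p),
        Finset.sum_coe_sort S.E' (fun p : Pl × Pl =>
          if p.2 = v then g (p.2 - p.1) / ‖p.2 - p.1‖ else 0)]
      unfold E'
      rw [Finset.sum_filter, Finset.sum_product_right, Finset.sum_eq_single v]
      · apply Finset.sum_congr rfl
        intro q _
        have ea : (S.Adj q v ∧ S.x q < S.x v) ↔ (S.Adj v q ∧ S.x q < S.x v) :=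
          ⟨fun h => ⟨S.symm _ _ h.1, h.2⟩, fun h => ⟨S.symm _ _ h.1, h.2⟩⟩
        simp only [if_true]
        by_cases hc : S.Adj v q ∧ S.x q < S.x v
        · rw [if_pos (ea.mpr hc), if_pos hc, norm_sub_rev, ← neg_div, ← map_neg, neg_sub]
        · rw [if_neg (fun h => hc (ea.mp h)), if_neg hc]
      · intro b _ hb
        apply Finset.sum_eq_zero
        intro q _
        simp [hb]
      · intro h; exact absurd hvV h
    have L2 : ∑ k : κ,
        (if (S.fa (Sum.inr k) = S.x v ∧ S.fs (Sum.inr k) * S.x v + S.ft (Sum.inr k) = S.y v) then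
          f (S.fs (Sum.inr k)) else 0) =
        ∑ k : κ, if (S.base k = v ∧ 0 < S.x (S.r k)) then g (S.r k) else 0 := by
      apply Finset.sum_congr rfl
      intro k _
      simp only [fa, fs, ft, Sum.elim_inr]
      by_cases hc : 0 < S.x (S.r k)
      · rw [if_pos hc, hpos _ hc, S.hr, div_one]
        by_cases hb : S.base k = v
        · rw [if_pos, if_pos ⟨hb, hc⟩]
          rw [← hb]; exact ⟨rfl, by ring⟩
        · rw [if_neg, if_neg (fun h => hb h.1)]
          rintro ⟨e1, e2⟩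
          rw [← e1] at e2
          exact hb (S.inj e1 (by linarith))
      · rw [if_neg hc, if_neg, if_neg (fun h => hc h.2)]
        rintro ⟨e1, _⟩
        linarith
    have R2 : ∑ k : κ,
        (if (S.fb (Sum.inr k) = S.x v ∧ S.fs (Sum.inr k) * S.x v + S.ft (Sum.inr k) = S.y v) then
          f (S.fs (Sum.inr k)) else 0) =
        ∑ k : κ, if (S.base k = v ∧ ¬ 0 < S.x (S.r k)) then - g (S.r k) else 0 := by
      apply Finset.sum_congr rfl
      intro k _
      simp only [fb, fs, ft, Sum.elim_inr]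
      by_cases hc : 0 < S.x (S.r k)
      · rw [if_pos hc, if_neg, if_neg (fun h => h.2 hc)]
        rintro ⟨e1, _⟩
        linarith
      · have hc' : S.x (S.r k) < 0 := lt_of_le_of_ne (not_lt.mp hc) (S.hrx k)
        rw [if_neg hc, hneg _ hc', S.hr, div_one]
        by_cases hb : S.base k = v
        · rw [if_pos, if_pos ⟨hb, hc⟩]
          rw [← hb]; exact ⟨rfl, by ring⟩
        · rw [if_neg, if_neg (fun h => hb h.1)]
          rintro ⟨e1, e2⟩
          rw [← e1] at e2
          exact hb (S.inj e1 (by linarith))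
    rw [L1, R1, L2, R2]
    have hb := congrArg g (S.bal v hvV)
    rw [map_add, map_sum, map_sum, map_zero, Finset.sum_filter, Finset.sum_filter] at hb
    have e3 : ∑ q ∈ S.V, (if (S.Adj v q ∧ S.x v < S.x q) then g (q - v) / ‖q - v‖ else 0)
        - ∑ q ∈ S.V, (if (S.Adj v q ∧ S.x q < S.x v) then - (g (q - v) / ‖q - v‖) else 0)
        = ∑ q ∈ S.V, (if S.Adj v q then g (‖q - v‖⁻¹ • (q - v)) else 0) := by
      rw [← Finset.sum_sub_distrib]
      apply Finset.sum_congr rfl
      intro q _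
      by_cases hA : S.Adj v q
      · have hne := S.hx v q hA
        rw [map_sub] at hne
        rw [if_pos hA, map_smul, smul_eq_mul]
        rcases lt_trichotomy (S.x v) (S.x q) with h | h | h
        · rw [if_pos ⟨hA, h⟩, if_neg (fun h' => by linarith [h'.2])]
          rw [div_eq_inv_mul]; ring
        · exact absurd (by rw [h]; ring) hne
        · rw [if_neg (fun h' => by linarith [h'.2]), if_pos ⟨hA, h⟩]
          rw [div_eq_inv_mul]; ring
      · simp [hA]
    have e4 : ∑ k : κ, (if (S.base k = v ∧ 0 < S.x (S.r k)) then g (S.r k) else 0)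
        - ∑ k : κ, (if (S.base k = v ∧ ¬ 0 < S.x (S.r k)) then - g (S.r k) else 0)
        = ∑ k : κ, (if S.base k = v then g (S.r k) else 0) := by
      rw [← Finset.sum_sub_distrib]
      apply Finset.sum_congr rfl
      intro k _
      by_cases hA : S.base k = v
      · by_cases hc : 0 < S.x (S.r k) <;> simp [hA, hc]
      · simp [hA]
    linarith
  · -- no vertex there: both sides vanish
    have z1 : ∀ p : {p : Pl × Pl // p ∈ S.E'},
        (if (S.fa (Sum.inl p) = X0 ∧ S.fs (Sum.inl p) * X0 + S.ft (Sum.inl p) = Y0) then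
          f (S.fs (Sum.inl p)) else 0) = 0 := by
      intro p
      obtain ⟨hp1, hp2, hp3, hp4⟩ := S.mem_E' p.2
      rw [if_neg]
      simp only [fa, fs, ft, Sum.elim_inl]
      rintro ⟨e1, e2⟩
      rw [← e1, S.line_left] at e2
      exact hv ⟨_, hp1, e1, e2⟩
    have z2 : ∀ p : {p : Pl × Pl // p ∈ S.E'},
        (if (S.fb (Sum.inl p) = X0 ∧ S.fs (Sum.inl p) * X0 + S.ft (Sum.inl p) = Y0) then
          f (S.fs (Sum.inl p)) else 0) = 0 := by
      intro p
      obtain ⟨hp1, hp2, hp3, hp4⟩ := S.mem_E' p.2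
      have hx0 : 0 < S.x (p.1.2 - p.1.1) := by rw [map_sub]; linarith
      rw [if_neg]
      simp only [fb, fs, ft, Sum.elim_inl]
      rintro ⟨e1, e2⟩
      rw [← e1, S.line_right hx0.ne'] at e2
      exact hv ⟨_, hp2, e1, e2⟩
    have z3 : ∀ k : κ,
        (if (S.fa (Sum.inr k) = X0 ∧ S.fs (Sum.inr k) * X0 + S.ft (Sum.inr k) = Y0) then
          f (S.fs (Sum.inr k)) else 0) = 0 := by
      intro k
      rw [if_neg]
      simp only [fa, fs, ft, Sum.elim_inr]
      by_cases hc : 0 < S.x (S.r k)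
      · rw [if_pos hc]
        rintro ⟨e1, e2⟩
        rw [← e1] at e2
        exact hv ⟨_, S.hbase k, e1, by linarith⟩
      · rw [if_neg hc]
        rintro ⟨e1, _⟩
        linarith
    have z4 : ∀ k : κ,
        (if (S.fb (Sum.inr k) = X0 ∧ S.fs (Sum.inr k) * X0 + S.ft (Sum.inr k) = Y0) then
          f (S.fs (Sum.inr k)) else 0) = 0 := by
      intro k
      rw [if_neg]
      simp only [fb, fs, ft, Sum.elim_inr]
      by_cases hc : 0 < S.x (S.r k)
      · rw [if_pos hc]
        rintro ⟨e1, _⟩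
        linarith
      · rw [if_neg hc]
        rintro ⟨e1, e2⟩
        rw [← e1] at e2
        exact hv ⟨_, S.hbase k, e1, by linarith⟩
    simp only [z1, z2, z3, z4]

lemma norm_pos_of {d : Pl} (h : S.x d ≠ 0) : 0 < ‖d‖ := by
  rw [norm_pos_iff]
  rintro rfl
  exact h (map_zero _)

/-- the slab system of a framed net -/
noncomputable def slab : Slab S.Ix where
  a := S.fa
  b := S.fb
  s := S.fs
  t := S.ft
  X := S.X
  hab := by
    rintro (p | k)
    · exact (S.mem_E' p.2).2.2.2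
    · simp only [fa, fb, Sum.elim_inr]
      have h1 := S.abs_lt_X (S.hbase k)
      rw [abs_lt] at h1
      by_cases hc : 0 < S.x (S.r k)
      · rw [if_pos hc, if_pos hc]; exact h1.2
      · rw [if_neg hc, if_neg hc]; exact h1.1
  ha := by
    rintro (p | k)
    · have h1 := S.abs_lt_X (S.mem_E' p.2).1
      rw [abs_lt] at h1
      exact h1.1.le
    · simp only [fa, Sum.elim_inr]
      have h1 := S.abs_lt_X (S.hbase k)
      rw [abs_lt] at h1
      by_cases hc : 0 < S.x (S.r k)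
      · rw [if_pos hc]; exact h1.1.le
      · rw [if_neg hc]
  hb := by
    rintro (p | k)
    · have h1 := S.abs_lt_X (S.mem_E' p.2).2.1
      rw [abs_lt] at h1
      exact h1.2.le
    · simp only [fb, Sum.elim_inr]
      have h1 := S.abs_lt_X (S.hbase k)
      rw [abs_lt] at h1
      by_cases hc : 0 < S.x (S.r k)
      · rw [if_pos hc]
      · rw [if_neg hc]; exact h1.2.le
  balc := by
    intro X0 Y0 h1 h2
    apply S.bal_aux co S.x _ _ X0 Y0 h1 h2
    · intro d hd
      exact co_div_pos hd (S.norm_pos_of hd.ne') (S.hxy d)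
    · intro d hd
      exact co_div_neg hd (S.norm_pos_of hd.ne) (S.hxy d)
  bals := by
    intro X0 Y0 h1 h2
    apply S.bal_aux si S.y _ _ X0 Y0 h1 h2
    · intro d hd
      exact si_div_pos hd (S.norm_pos_of hd.ne') (S.hxy d)
    · intro d hd
      exact si_div_neg hd (S.norm_pos_of hd.ne) (S.hxy d)

/-- a vertex with two nonparallel edges, one of slope at most one -/
def Rel (v : Pl) : Prop := ∃ q q', S.Adj v q ∧ S.Adj v q' ∧
  S.y (q - v) / S.x (q - v) ≠ S.y (q' - v) / S.x (q' - v) ∧ |S.y (q - v) / S.x (q - v)| ≤ 1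

lemma X_pos : 0 < S.X := by
  unfold X
  have : 0 ≤ ∑ v ∈ S.V, |S.x v| := Finset.sum_nonneg (fun _ _ => abs_nonneg _)
  linarith

lemma piece {v q : Pl} (h : S.Adj v q) : ∃ i : S.Ix, S.fa i ≤ S.x v ∧ S.x v ≤ S.fb i ∧
    S.fs i * S.x v + S.ft i = S.y v ∧ S.fs i = S.y (q - v) / S.x (q - v) := by
  have hm := S.mem v q h
  have hx := S.hx v q h
  have hx' := hx
  rw [map_sub] at hx'
  rcases lt_trichotomy (S.x v) (S.x q) with hlt | heq | hgt
  · refine ⟨Sum.inl ⟨(v, q), ?_⟩, ?_⟩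
    · unfold E'
      rw [Finset.mem_filter, Finset.mem_product]
      exact ⟨hm, h, hlt⟩
    · simp only [fa, fb, fs, ft, Sum.elim_inl]
      exact ⟨le_refl _, hlt.le, S.line_left _ _, trivial⟩
  · exact absurd (by rw [heq]; ring) hx'
  · have h' := S.symm _ _ h
    have hx2 := S.hx _ _ h'
    refine ⟨Sum.inl ⟨(q, v), ?_⟩, ?_⟩
    · unfold E'
      rw [Finset.mem_filter, Finset.mem_product]
      exact ⟨⟨hm.2, hm.1⟩, h', hgt⟩
    · simp only [fa, fb, fs, ft, Sum.elim_inl]
      refine ⟨hgt.le, le_refl _, S.line_right hx2, ?_⟩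
      rw [← neg_sub q v, map_neg, map_neg, neg_div_neg_eq]

theorem card_rel_le {N C : ℕ}
    (hC : ∀ (W W' : List ℝ) (n : ℕ), W.length ≤ N → W'.length ≤ N → Chn GS W W' n → n ≤ C)
    (hN : Fintype.card κ ≤ N) : (S.V.filter (fun v => S.Rel v)).card ≤ C := by
  have hX := S.X_pos
  set Z := (S.V.filter (fun v => S.Rel v)).image (fun v => (S.x v, S.y v)) with hZ
  have hcard : (S.V.filter (fun v => S.Rel v)).card = Z.card := by
    rw [hZ, Finset.card_image_of_injective]
    intro p q hpq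
    simp only [Prod.mk.injEq] at hpq
    exact S.inj hpq.1 hpq.2
  rw [hcard]
  have hcount : ∀ (c : S.Ix → ℝ) (x0 : ℝ), (∀ p, c (Sum.inl p) ≠ x0) →
      (Finset.univ.filter (fun i => c i = x0)).card ≤ N := by
    intro c x0 hc
    refine le_trans ?_ hN
    have hsub : (Finset.univ.filter (fun i => c i = x0)) ⊆
        (Finset.univ : Finset κ).image (Sum.inr : κ → S.Ix) := by
      rintro (p | k) hi
      · exact absurd (Finset.mem_filter.mp hi).2 (hc p)
      · simp
    refine (Finset.card_le_card hsub).trans ?_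
    refine Finset.card_image_le.trans ?_
    simp
  refine S.slab.card_relevant_le (by show -S.X < S.X; linarith) hC ?_ ?_ Z ?_
  · apply hcount
    intro p hp
    have h1 := S.abs_lt_X (S.mem_E' p.2).1
    rw [abs_lt] at h1
    have h2 : S.x p.1.1 = -S.X := hp
    linarith [h1.1]
  · apply hcount
    intro p hp
    have h1 := S.abs_lt_X (S.mem_E' p.2).2.1
    rw [abs_lt] at h1
    have h2 : S.x p.1.2 = S.X := hp
    linarith [h1.2]
  · intro z hz
    rw [hZ, Finset.mem_image] at hz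
    obtain ⟨v, hv, rfl⟩ := hz
    rw [Finset.mem_filter] at hv
    have h1 := S.abs_lt_X hv.1
    rw [abs_lt] at h1
    refine ⟨h1.1, h1.2, ?_⟩
    obtain ⟨q, q', h2, h3, h4, h5⟩ := hv.2
    obtain ⟨i, i1, i2, i3, i4⟩ := S.piece h2
    obtain ⟨j, j1, j2, j3, j4⟩ := S.piece h3
    refine ⟨i, j, i1, i2, i3, j1, j2, j3, ?_, ?_⟩
    · show S.fs i ≠ S.fs j
      rw [i4, j4]; exact h4
    · show |S.fs i| ≤ 1
      rw [i4]; exact h5

end Fr

end Pool.Agent.GeoNet
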