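import Pool.Agent.GeoNet.Words

set_option autoImplicit false

namespace Pool.Agent.GeoNet

/-- A block move. -/
structure Mv (B B' : List ℝ) : Prop where
  s1 : B.Pairwise (· ≥ ·)
  s2 : B'.Pairwise (· ≤ ·)
  c : csum B = csum B'
  s : ssum B = ssum B'

lemma Mv.area {B B' : List ℝ} (h : Mv B B') (X Y : List ℝ) :
    Q (X ++ B' ++ Y) - Q (X ++ B ++ Y) = P B + P B' := by
  have h1 := Q_eq_neg_P h.s1
  have h2 := Q_eq_P h.s2
  simp only [Q_append, csum_append, ssum_append, h.c, h.s, h1, h2]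
  ring

lemma Mv.nil_iff {B B' : List ℝ} (h : Mv B B') : B = [] ↔ B' = [] := by
  constructor
  · intro hB
    by_contra hB'
    have h1 := csum_pos hB'
    rw [← h.c, hB] at h1
    simp at h1
  · intro hB'
    by_contra hB
    have h1 := csum_pos hB
    rw [h.c, hB'] at h1
    simp at h1

lemma co_mul_ge (s : ℝ) : 1 ≤ co s * (1 + |s|) := by
  have h1 := co_sq_mul s
  have h2 := co_pos s
  have h3 := abs_nonneg s
  have h4 : s ^ 2 ≤ (|s|) ^ 2 := by rw [sq_abs]
  by_contra h
  push Not at h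
  have h5 : 0 ≤ co s * (1 + |s|) := by positivity
  have h6 : (co s * (1 + |s|)) ^ 2 < 1 := by nlinarith
  have h7 : (co s * (1 + |s|)) ^ 2 = co s ^ 2 * (1 + s ^ 2) + co s ^ 2 * (2 * |s|) := by
    rw [← sq_abs s]; ring
  have h8 : 0 ≤ co s ^ 2 * (2 * |s|) := by positivity
  linarith

/-- letters of a thin block are all close to each other -/
lemma Mv.near {B B' : List ℝ} (h : Mv B B') (hA : P B + P B' ≤ 1 / 20) {x : ℝ}
    (hx : x ∈ B ++ B') (hx1 : |x| ≤ 6 / 5) :
    ∃ r : ℝ, ∀ y ∈ B ++ B', |y - r| ≤ 5 * (P B + P B') := by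
  set A := P B + P B' with hAdef
  have hPB := P_nonneg B
  have hPB' := P_nonneg B'
  set R1 := csum B with hR1
  set R2 := ssum B with hR2
  have hcox : (16 / 25 : ℝ) ≤ co x := le_co hx1 (by norm_num) (by norm_num)
  have hR1x : co x ≤ R1 := by
    rcases List.mem_append.mp hx with hx | hx
    · exact co_le_csum hx
    · rw [hR1, h.c]; exact co_le_csum hx
  have hR1pos : 0 < R1 := lt_of_lt_of_le (co_pos x) hR1x
  have hR1ge : (16 / 25 : ℝ) ≤ R1 := hcox.trans hR1x
  have key : ∀ y ∈ B ++ B', co y * R1 * |y - R2 / R1| ≤ A := by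
    intro y hy
    have h1 : |co y * R2 - si y * R1| ≤ A := by
      rcases List.mem_append.mp hy with hy | hy
      · have := cross_le_P hy; linarith
      · have := cross_le_P hy
        rw [← h.c, ← h.s] at this; linarith
    have h2 : co y * R2 - si y * R1 = - (co y * R1 * (y - R2 / R1)) := by
      unfold si; field_simp; ring
    rw [h2, abs_neg, abs_mul, abs_of_pos (mul_pos (co_pos y) hR1pos)] at h1
    exact h1
  have hA0 : 0 ≤ A := by linarith
  have h0 : |x - R2 / R1| ≤ 49 / 20 * A := by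
    have h1 := key x hx
    have h2 := abs_nonneg (x - R2 / R1)
    have h3 : (16 / 25 : ℝ) * (16 / 25) ≤ co x * R1 := by
      apply mul_le_mul hcox hR1ge (by norm_num) (co_pos x).le
    nlinarith
  have hr : |R2 / R1| ≤ 133 / 100 := by
    have h1 : |R2 / R1| ≤ |x| + |x - R2 / R1| := by
      have := abs_sub_abs_le_abs_sub (R2 / R1) x
      rw [abs_sub_comm] at this
      linarith
    linarith
  refine ⟨R2 / R1, fun y hy => ?_⟩
  have h1 := key y hy
  have h2 := co_mul_ge y
  set t := |y - R2 / R1| with ht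
  have ht0 : 0 ≤ t := abs_nonneg _
  have h3 : |y| ≤ |R2 / R1| + t := by
    have := abs_sub_abs_le_abs_sub y (R2 / R1)
    linarith
  have h4 : co y * t ≤ A / (16 / 25) := by
    rw [le_div_iff₀ (by norm_num)]
    have : 0 ≤ co y * t := mul_nonneg (co_pos y).le ht0
    nlinarith
  have h5 : t ≤ (A / (16 / 25)) * (1 + |y|) := by
    calc t = t * 1 := by ring
      _ ≤ t * (co y * (1 + |y|)) := by gcongr
      _ = (co y * t) * (1 + |y|) := by ring
      _ ≤ _ := by gcongr
  have h6 : (A / (16 / 25)) * (1 + |y|) ≤ (A / (16 / 25)) * (233 / 100 + t) := by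
    exact mul_le_mul_of_nonneg_left (by linarith) (by positivity)
  nlinarith

lemma Mv.near2 {B B' : List ℝ} (h : Mv B B') (hA : P B + P B' ≤ 1 / 20) {x : ℝ}
    (hx : x ∈ B ++ B') (hx1 : |x| ≤ 6 / 5) :
    ∀ y ∈ B ++ B', ∀ z ∈ B ++ B', |y - z| ≤ 10 * (P B + P B') := by
  obtain ⟨r, hr⟩ := h.near hA hx hx1
  intro y hy z hz
  have h1 := hr y hy
  have h2 := hr z hz
  have h3 : |y - z| ≤ |y - r| + |z - r| := by
    have := abs_sub_le y r z
    rw [abs_sub_comm r z] at this
    exact this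
  linarith

lemma Mv.length_eq {B B' : List ℝ} (h : Mv B B') (hA : P B + P B' ≤ 1 / 20) {x : ℝ}
    (hx : x ∈ B ++ B') (hx1 : |x| ≤ 6 / 5) : B.length = B'.length := by
  have hn := h.near2 hA hx hx1
  have hPB := P_nonneg B
  have hPB' := P_nonneg B'
  have hpos : ∀ y ∈ B ++ B', ∀ z ∈ B ++ B', 0 ≤ 1 + y * z := by
    intro y hy z hz
    have h1 := hn y hy z hz
    have h2 : |y - z| ≤ 1 / 2 := by linarith
    rw [abs_le] at h2
    nlinarith [sq_nonneg (y + z), sq_nonneg (y - z)]
  have h1 : En B ≤ 2 * P B := En_le_P (fun y hy z hz =>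
    hpos y (List.mem_append_left _ hy) z (List.mem_append_left _ hz))
  have h2 : En B' ≤ 2 * P B' := En_le_P (fun y hy z hz =>
    hpos y (List.mem_append_right _ hy) z (List.mem_append_right _ hz))
  have h3 := En_nonneg B
  have h4 := En_nonneg B'
  unfold En at h1 h2 h3 h4
  rw [← h.c, ← h.s] at h2 h4
  by_contra hne
  rcases lt_or_gt_of_ne hne with hlt | hlt
  · have : (B.length : ℝ) + 1 ≤ B'.length := by exact_mod_cast hlt
    have h5 : (0 : ℝ) ≤ B.length := Nat.cast_nonneg _
    nlinarith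
  · have : (B'.length : ℝ) + 1 ≤ B.length := by exact_mod_cast hlt
    have h5 : (0 : ℝ) ≤ B'.length := Nat.cast_nonneg _
    nlinarith

/-- Chains of weighted steps. -/
inductive Chn {α : Type} (S : α → α → ℕ → Prop) : α → α → ℕ → Prop
  | nil (W : α) : Chn S W W 0
  | cons {W W1 W2 : α} {k n : ℕ} : S W W1 k → Chn S W1 W2 n → Chn S W W2 (k + n)

namespace Chn

variable {α : Type} {S : α → α → ℕ → Prop}

lemma trans {W W1 W2 : α} {n m : ℕ} (h1 : Chn S W W1 n) (h2 : Chn S W1 W2 m) :
    Chn S W W2 (n + m) := by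
  induction h1 with
  | nil => simpa using h2
  | cons hs _ ih =>
    rw [add_assoc]
    exact Chn.cons hs (ih h2)

lemma single {W W1 : α} {k : ℕ} (h : S W W1 k) : Chn S W W1 k := by
  have := Chn.cons h (Chn.nil W1)
  simpa using this

lemma split (hw : ∀ W W1 k, S W W1 k → k ≤ 1) {W W' : α} {n : ℕ} (h : Chn S W W' n) :
    ∀ k ≤ n, ∃ W1, Chn S W W1 k ∧ Chn S W1 W' (n - k) := by
  induction h with
  | nil W =>
    intro k hk
    have : k = 0 := by omega
    subst this
    exact ⟨W, Chn.nil _, Chn.nil _⟩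
  | @cons W W1 W2 k0 n hs hc ih =>
    intro k hk
    have h0 := hw _ _ _ hs
    rcases Nat.eq_zero_or_pos k with rfl | hkpos
    · refine ⟨W, Chn.nil _, ?_⟩
      simpa using Chn.cons hs hc
    · obtain ⟨W3, h3, h4⟩ := ih (k - k0) (by omega)
      refine ⟨W3, ?_, ?_⟩
      · have := Chn.cons hs h3
        rwa [Nat.add_sub_cancel' (by omega)] at this
      · have e : k0 + n - k = n - (k - k0) := by omega
        rw [e]; exact h4

lemma inv {I : α → Prop} (hI : ∀ W W1 k, S W W1 k → I W → I W1) {W W' : α} {n : ℕ}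
    (h : Chn S W W' n) (h0 : I W) : I W' := by
  induction h with
  | nil => exact h0
  | cons hs _ ih => exact ih (hI _ _ _ hs h0)

lemma mono {f : α → ℝ} (hf : ∀ W W1 k, S W W1 k → f W ≤ f W1) {W W' : α} {n : ℕ}
    (h : Chn S W W' n) : f W ≤ f W' := by
  induction h with
  | nil => exact le_refl _
  | cons hs _ ih => exact (hf _ _ _ hs).trans ih

theorem runs (I : α → Prop) (f : α → ℝ) (K : ℕ) (δ : ℝ)
    (hw : ∀ W W1 k, S W W1 k → k ≤ 1)
    (hI : ∀ W W1 k, S W W1 k → I W → I W1)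
    (hf : ∀ W W1 k, S W W1 k → f W ≤ f W1)
    (hK : ∀ W W' n, I W → Chn S W W' n → f W' - f W < δ → n ≤ K) :
    ∀ (j : ℕ) (W W' : α) (n : ℕ), I W → Chn S W W' n → f W' - f W < j * δ → n ≤ (K + 1) * j := by
  intro j
  induction j with
  | zero =>
    intro W W' n _ h h2
    have := h.mono hf
    simp at h2
    linarith
  | succ j ih =>
    intro W W' n hIW h h2
    by_cases hn : n ≤ K
    · calc n ≤ K + 1 := by omega
        _ ≤ (K + 1) * (j + 1) := by nlinarith
    · obtain ⟨W1, h3, h4⟩ := h.split hw (K + 1) (by omega)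
      have h5 : δ ≤ f W1 - f W := by
        by_contra hcon
        push Not at hcon
        have := hK _ _ _ hIW h3 hcon
        omega
      have h6 := ih W1 W' _ (h3.inv hI hIW) h4 (by push_cast at h2; linarith)
      have : (K + 1) * (j + 1) = (K + 1) * j + (K + 1) := by ring
      omega

end Chn

end Pool.Agent.GeoNet
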