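import Pool.Agent.GeoNet.Fixed

set_option autoImplicit false

namespace Pool.Agent.GeoNet

/-- general step with weight (the weight may be `1` only for a nontrivial block containing a
letter of absolute value at most `1`). -/
def GS (W W1 : List ℝ) (k : ℕ) : Prop :=
  ∃ X B B' Y, W = X ++ B ++ Y ∧ W1 = X ++ B' ++ Y ∧ Mv B B' ∧
    (k = 0 ∨ (k = 1 ∧ B ≠ B' ∧ ∃ x ∈ B ++ B', |x| ≤ 1))

lemma GS.le_one {W W1 : List ℝ} {k : ℕ} (h : GS W W1 k) : k ≤ 1 := by
  obtain ⟨X, B, B', Y, _, _, _, h⟩ := h
  rcases h with h | h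
  · omega
  · omega

lemma GS.mono {W W1 : List ℝ} {k : ℕ} (h : GS W W1 k) : Q W ≤ Q W1 := by
  obtain ⟨X, B, B', Y, rfl, rfl, hm, _⟩ := h
  have := hm.area X Y
  have := P_nonneg B
  have := P_nonneg B'
  linarith

lemma GS.csum_eq {W W1 : List ℝ} {k : ℕ} (h : GS W W1 k) : csum W1 = csum W := by
  obtain ⟨X, B, B', Y, rfl, rfl, hm, _⟩ := h
  simp only [csum_append, hm.c]

/-- sublist of inner letters -/
noncomputable def inn (l : ℝ) (W : List ℝ) : List ℝ := W.filter (fun x => decide (|x| < l))

lemma inn_append (l : ℝ) (W V : List ℝ) : inn l (W ++ V) = inn l W ++ inn l V := by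
  simp [inn]

lemma inn_eq_self {l : ℝ} {W : List ℝ} (h : ∀ x ∈ W, |x| < l) : inn l W = W := by
  unfold inn
  rw [List.filter_eq_self]
  intro x hx
  simpa using h x hx

lemma inn_eq_nil {l : ℝ} {W : List ℝ} (h : ∀ x ∈ W, l ≤ |x|) : inn l W = [] := by
  unfold inn
  rw [List.filter_eq_nil_iff]
  intro x hx
  simpa using h x hx

lemma mem_inn {l : ℝ} {W : List ℝ} {x : ℝ} (h : x ∈ inn l W) : x ∈ W ∧ |x| < l := by
  unfold inn at h
  rw [List.mem_filter] at h
  exact ⟨h.1, by simpa using h.2⟩

lemma inner_chain {l : ℝ} (hl1 : 1 < l) (hl2 : l ≤ 11 / 10) {W W' : List ℝ} {n : ℕ}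
    (h : Chn GS W W' n) : (∀ x ∈ W, 10 * (Q W' - Q W) < |(|x| - l)|) → Q W' - Q W ≤ 1 / 100 →
    ∃ k, n ≤ k ∧ Chn TS (inn l W) (inn l W') k := by
  induction h with
  | nil W =>
    intro _ _
    exact ⟨0, le_refl _, Chn.nil _⟩
  | @cons W W1 W2 k0 n hs hc ih =>
    intro hmar hq
    have hmono : Q W1 ≤ Q W2 := hc.mono (fun _ _ _ h => h.mono)
    obtain ⟨X, B, B', Y, hW0, hW1, hm, hk⟩ := hs
    have harea := hm.area X Y
    rw [← hW0, ← hW1] at harea
    have hPB := P_nonneg B
    have hPB' := P_nonneg B'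
    have hA : P B + P B' ≤ 1 / 20 := by linarith
    have hBW : ∀ x ∈ B, x ∈ W := by intro x hx; rw [hW0]; simp [hx]
    have hmar1 : ∀ x ∈ W1, 10 * (Q W2 - Q W1) < |(|x| - l)| := by
      intro x hx
      rw [hW1] at hx
      simp only [List.mem_append] at hx
      have hold : x ∈ W → 10 * (Q W2 - Q W1) < |(|x| - l)| := by
        intro hxW
        have := hmar x hxW
        linarith
      rcases hx with (hx | hx) | hx
      · exact hold (by rw [hW0]; simp [hx])
      · by_cases hz : ∃ z ∈ B ++ B', |z| ≤ 6 / 5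
        · obtain ⟨z, hz, hz1⟩ := hz
          have hnear := hm.near2 hA hz hz1
          have hB'ne : B' ≠ [] := List.ne_nil_of_mem hx
          have hBne : B ≠ [] := fun hB => hB'ne (hm.nil_iff.mp hB)
          obtain ⟨b, hb⟩ := List.exists_mem_of_ne_nil B hBne
          have h1 := hnear x (List.mem_append_right _ hx) b (List.mem_append_left _ hb)
          have h2 := hmar b (hBW b hb)
          have h3 : |(|b| - l)| ≤ |(|x| - l)| + |x - b| := by
            have e1 : |(|b| - l)| ≤ |(|b| - |x|)| + |(|x| - l)| := abs_sub_le _ _ _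
            have e2 : |(|b| - |x|)| ≤ |b - x| := abs_abs_sub_abs_le _ _
            rw [abs_sub_comm b x] at e2
            linarith
          linarith
        · push Not at hz
          have h1 := hz x (List.mem_append_right _ hx)
          have h2 : 1 / 10 < |x| - l := by linarith
          have h3 := le_abs_self (|x| - l)
          linarith
      · exact hold (by rw [hW0]; simp [hx])
    obtain ⟨k1, hk1, hc1⟩ := ih hmar1 (by linarith)
    by_cases hz : ∃ z ∈ B ++ B', |z| < l
    · obtain ⟨z, hz, hzl⟩ := hz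
      have hz1 : |z| ≤ 6 / 5 := by linarith
      have hnear := hm.near2 hA hz hz1
      have hBin : ∀ b ∈ B, |b| < l ∧ 10 * (Q W2 - Q W) < l - |b| := by
        intro b hb
        have h1 := hnear b (List.mem_append_left _ hb) z hz
        have h2 := hmar b (hBW b hb)
        have h3 : |b| - |z| ≤ |b - z| := abs_sub_abs_le_abs_sub b z
        have h4 : |b| < l := by
          by_contra hcon
          push Not at hcon
          rw [abs_of_nonneg (by linarith : (0 : ℝ) ≤ |b| - l)] at h2
          linarith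
        refine ⟨h4, ?_⟩
        rw [abs_of_neg (by linarith : |b| - l < 0)] at h2
        linarith
      have hB'in : ∀ b ∈ B', |b| < l := by
        intro b' hb'
        have hB'ne : B' ≠ [] := List.ne_nil_of_mem hb'
        have hBne : B ≠ [] := fun hB => hB'ne (hm.nil_iff.mp hB)
        obtain ⟨b, hb⟩ := List.exists_mem_of_ne_nil B hBne
        have h1 := hnear b' (List.mem_append_right _ hb') b (List.mem_append_left _ hb)
        have h2 := hBin b hb
        have h3 : |b'| - |b| ≤ |b' - b| := abs_sub_abs_le_abs_sub b' b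
        linarith
      have hlen := hm.length_eq hA hz hz1
      have e1 : inn l W = inn l X ++ B ++ inn l Y := by
        rw [hW0, inn_append, inn_append, inn_eq_self (fun x hx => (hBin x hx).1)]
      have e2 : inn l W1 = inn l X ++ B' ++ inn l Y := by
        rw [hW1, inn_append, inn_append, inn_eq_self hB'in]
      by_cases hBB : B = B'
      · refine ⟨k1, ?_, ?_⟩
        · rcases hk with hk | hk
          · omega
          · exact absurd hBB hk.2.1
        · rw [e1, hBB, ← e2]; exact hc1
      · refine ⟨1 + k1, ?_, ?_⟩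
        · rcases hk with hk | hk <;> omega
        · refine Chn.cons ⟨rfl, inn l X, B, B', inn l Y, e1, e2, hm, hBB, hlen, ?_⟩ hc1
          intro x hx
          have := hB'in x hx
          linarith
    · push Not at hz
      have e1 : inn l W = inn l X ++ inn l Y := by
        rw [hW0, inn_append, inn_append,
          inn_eq_nil (fun x hx => hz x (List.mem_append_left _ hx))]
        simp
      have e2 : inn l W1 = inn l X ++ inn l Y := by
        rw [hW1, inn_append, inn_append,
          inn_eq_nil (fun x hx => hz x (List.mem_append_right _ hx))]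
        simp
      refine ⟨k1, ?_, ?_⟩
      · rcases hk with hk | ⟨_, _, x, hx, hx1⟩
        · omega
        · have := hz x hx
          linarith
      · rw [e1, ← e2]; exact hc1

lemma sum_co_le_csum : ∀ (W : List ℝ) (S : Finset ℝ), (∀ y ∈ S, y ∈ W) →
    ∑ y ∈ S, co y ≤ csum W := by
  intro W
  induction W with
  | nil =>
    intro S hS
    have : S = ∅ := by
      apply Finset.eq_empty_of_forall_notMem
      intro y hy
      have := hS y hy
      simp at this
    simp [this]
  | cons a L ih =>
    intro S hS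
    classical
    have h1 := ih (S.erase a) (by
      intro y hy
      rw [Finset.mem_erase] at hy
      rcases List.mem_cons.mp (hS y hy.2) with h | h
      · exact absurd h hy.1
      · exact h)
    rw [csum_cons]
    by_cases ha : a ∈ S
    · rw [← Finset.add_sum_erase S co ha]
      linarith
    · rw [Finset.erase_eq_of_notMem ha] at h1
      have := co_pos a
      linarith

lemma csum_le_length (W : List ℝ) : csum W ≤ W.length := by
  induction W with
  | nil => simp
  | cons a L ih =>
    rw [csum_cons, List.length_cons]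
    have := co_le_one a
    push_cast
    linarith

lemma Dv_le_length (a : ℝ) (L : List ℝ) : Dv a L ≤ L.length := by
  induction L with
  | nil => simp
  | cons b L ih =>
    rw [Dv_cons, List.length_cons]
    have h1 := cross_sq a b
    have h2 := df_nonneg a b
    have h3 : |b - a| * (co a * co b) = |(b - a) * (co a * co b)| := by
      rw [abs_mul, abs_of_pos (mul_pos (co_pos a) (co_pos b))]
    have h4 : |(b - a) * (co a * co b)| ≤ 1 := by
      apply abs_le_of_sq_le_sq _ (by norm_num)
      nlinarith [sq_nonneg (df a b - 1)]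
    push_cast
    linarith

lemma P_le_length (L : List ℝ) : P L ≤ (L.length : ℝ) ^ 2 := by
  induction L with
  | nil => simp
  | cons a L ih =>
    rw [P_cons, List.length_cons]
    have := Dv_le_length a L
    have h3 : (0 : ℝ) ≤ L.length := Nat.cast_nonneg _
    push_cast
    nlinarith

lemma inn_length_le {l : ℝ} (hl2 : l ≤ 11 / 10) (W : List ℝ) :
    (16 / 25 : ℝ) * (inn l W).length ≤ csum W := by
  induction W with
  | nil => simp [inn]
  | cons a L ih =>
    rw [csum_cons]
    unfold inn at ih ⊢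
    by_cases h : |a| < l
    · rw [List.filter_cons_of_pos (by simpa using h), List.length_cons]
      have := le_co (s := a) (c := 16 / 25) (t := 6 / 5) (by linarith) (by norm_num) (by norm_num)
      push_cast
      linarith
    · rw [List.filter_cons_of_neg (by simpa using h)]
      have := co_pos a
      linarith

/-- choice of the threshold -/
lemma exists_threshold (N : ℕ) (W : List ℝ) (hW : csum W ≤ N) :
    ∃ l : ℝ, 1 < l ∧ l ≤ 11 / 10 ∧ ∀ x ∈ W, 1 / (40 * (2 * N + 1 : ℝ)) < |(|x| - l)| := by
  classical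
  set M : ℕ := 2 * N + 1 with hM
  have hMr : (2 * N + 1 : ℝ) = (M : ℝ) := by rw [hM]; push_cast; ring
  have hMpos : (0 : ℝ) < M := by rw [hM]; positivity
  rw [hMr]
  by_contra hcon
  push Not at hcon
  let c : Fin M → ℝ := fun k => 1 + ((k : ℕ) + 1 / 2) / (10 * M)
  have hc1 : ∀ k, 1 < c k := by
    intro k
    have : (0 : ℝ) < ((k : ℕ) + 1 / 2) / (10 * M) := by positivity
    show 1 < 1 + ((k : ℕ) + 1 / 2 : ℝ) / (10 * M)
    linarith
  have hc2 : ∀ k, c k ≤ 11 / 10 := by
    intro k
    have hk : ((k : ℕ) : ℝ) + 1 ≤ M := by exact_mod_cast k.2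
    show 1 + ((k : ℕ) + 1 / 2 : ℝ) / (10 * M) ≤ 11 / 10
    have : ((k : ℕ) + 1 / 2 : ℝ) / (10 * M) ≤ 1 / 10 := by
      rw [div_le_div_iff₀ (by positivity) (by norm_num)]
      linarith
    linarith
  have hex : ∀ k : Fin M, ∃ x ∈ W, |(|x| - c k)| ≤ 1 / (40 * (M : ℝ)) := fun k =>
    hcon (c k) (hc1 k) (hc2 k)
  choose x hxW hx using hex
  have hinj : Function.Injective x := by
    intro k k' hkk
    by_contra hne
    have h1 := hx k
    have h2 := hx k'
    rw [hkk] at h1
    have h3 : |c k - c k'| ≤ 1 / (20 * (M : ℝ)) := by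
      have e : |c k - c k'| ≤ |(c k - |x k'|)| + |(|x k'| - c k')| := abs_sub_le _ _ _
      rw [abs_sub_comm (c k) (|x k'|)] at e
      have e2 : 1 / (20 * (M : ℝ)) = 1 / (40 * (M : ℝ)) + 1 / (40 * (M : ℝ)) := by
        field_simp; norm_num
      linarith
    have h4 : (1 : ℝ) ≤ |((k : ℕ) : ℝ) - ((k' : ℕ) : ℝ)| := by
      have hne' : ((k : ℕ) : ℤ) - ((k' : ℕ) : ℤ) ≠ 0 := by
        intro h
        apply hne
        ext
        omega
      have := Int.one_le_abs hne'
      exact_mod_cast this
    have h5 : c k - c k' = (((k : ℕ) : ℝ) - ((k' : ℕ) : ℝ)) / (10 * M) := by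
      show (1 + ((k : ℕ) + 1 / 2 : ℝ) / (10 * M)) - (1 + ((k' : ℕ) + 1 / 2 : ℝ) / (10 * M)) = _
      field_simp; ring
    rw [h5, abs_div, abs_of_pos (by positivity : (0 : ℝ) < 10 * M),
      div_le_div_iff₀ (by positivity) (by positivity)] at h3
    nlinarith
  have hsum := sum_co_le_csum W (Finset.univ.image x) (by
    intro y hy
    simp only [Finset.mem_image, Finset.mem_univ, true_and] at hy
    obtain ⟨k, rfl⟩ := hy
    exact hxW k)
  rw [Finset.sum_image (fun a _ b _ h => hinj h)] at hsum
  have hco : ∀ k : Fin M, (16 / 25 : ℝ) ≤ co (x k) := by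
    intro k
    apply le_co (t := 6 / 5) _ (by norm_num) (by norm_num)
    have h1 := hx k
    have h2 := hc2 k
    have h3 := le_abs_self (|x k| - c k)
    have h4 : 1 / (40 * (M : ℝ)) ≤ 1 / 10 := by
      rw [div_le_div_iff₀ (by positivity) (by norm_num)]
      have : (1 : ℝ) ≤ M := by rw [hM]; push_cast; linarith [Nat.cast_nonneg (α := ℝ) N]
      linarith
    linarith
  have h5 : (M : ℝ) * (16 / 25) ≤ ∑ k : Fin M, co (x k) := by
    have := Finset.card_nsmul_le_sum Finset.univ (fun k => co (x k)) (16 / 25) (fun k _ => hco k)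
    simpa using this
  rw [← hMr] at h5
  have h6 : (0 : ℝ) ≤ N := Nat.cast_nonneg _
  linarith

/-- **Word theorem.** -/
theorem word_bound (N : ℕ) : ∃ C : ℕ, ∀ (W W' : List ℝ) (n : ℕ), W.length ≤ N → W'.length ≤ N →
    Chn GS W W' n → n ≤ C := by
  obtain ⟨G, hG⟩ := fixedLen (2 * N)
  set δ : ℝ := 1 / (400 * (2 * N + 1 : ℝ)) with hδ
  have hδpos : 0 < δ := by positivity
  have hN0 : (0 : ℝ) ≤ N := Nat.cast_nonneg _
  have hδle : δ ≤ 1 / 100 := by
    rw [hδ, div_le_div_iff₀ (by positivity) (by norm_num)]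
    linarith
  refine ⟨(G + 1) * (2 * N ^ 2 * (400 * (2 * N + 1)) + 1), ?_⟩
  intro W W' n hW hW' h
  have hrun : ∀ V V' n, csum V ≤ N → Chn GS V V' n → Q V' - Q V < δ → n ≤ G := by
    intro V V' n hV hc hlt
    obtain ⟨l, hl1, hl2, hl3⟩ := exists_threshold N V hV
    obtain ⟨k, hk, hck⟩ := inner_chain hl1 hl2 hc (by
      intro x hx
      have h1 := hl3 x hx
      have h2 : 10 * δ = 1 / (40 * (2 * N + 1 : ℝ)) := by rw [hδ]; field_simp; ring
      linarith) (by linarith)
    have hlen : (inn l V).length ≤ 2 * N := by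
      have h1 := inn_length_le hl2 V
      have h2 : ((inn l V).length : ℝ) ≤ 2 * N := by linarith
      exact_mod_cast h2
    have h3 := hG _ hlen (inn l V) (inn l V') k rfl (by
      intro z hz
      have := (mem_inn hz).2
      linarith) hck
    omega
  have hcW : csum W ≤ N := by
    have h1 := csum_le_length W
    have h2 : (W.length : ℝ) ≤ N := by exact_mod_cast hW
    linarith
  have htot : Q W' - Q W < ((2 * N ^ 2 * (400 * (2 * N + 1)) + 1 : ℕ) : ℝ) * δ := by
    have h1 := abs_Q_le_P W
    have h2 := abs_Q_le_P W'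
    have h3 := P_le_length W
    have h4 := P_le_length W'
    have h5 : (W.length : ℝ) ≤ N := by exact_mod_cast hW
    have h6 : (W'.length : ℝ) ≤ N := by exact_mod_cast hW'
    have h7 : (W.length : ℝ) ^ 2 ≤ (N : ℝ) ^ 2 := pow_le_pow_left₀ (Nat.cast_nonneg _) h5 2
    have h8 : (W'.length : ℝ) ^ 2 ≤ (N : ℝ) ^ 2 := pow_le_pow_left₀ (Nat.cast_nonneg _) h6 2
    rw [abs_le] at h1 h2
    have h9 : (2 * (N : ℝ) ^ 2 * (400 * (2 * N + 1))) * δ = 2 * (N : ℝ) ^ 2 := by
      rw [hδ]; field_simp
    push_cast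
    have h10 : (2 * (N : ℝ) ^ 2 * (400 * (2 * N + 1)) + 1) * δ
        = (2 * (N : ℝ) ^ 2 * (400 * (2 * N + 1))) * δ + δ := by ring
    rw [h10, h9]
    linarith
  exact Chn.runs (fun V => csum V ≤ N) Q G δ (fun _ _ _ h => h.le_one)
    (fun _ _ _ h h0 => by
      show csum _ ≤ _
      rw [h.csum_eq]; exact h0) (fun _ _ _ h => h.mono) hrun _ W W' n hcW h htot

end Pool.Agent.GeoNet
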