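import Pool.Agent.GeoNet.Process

set_option autoImplicit false

open Classical

namespace Pool.Agent.GeoNet

/-- order on (height, slope) pairs -/
def pr (p q : ℝ × ℝ) : Prop := p.1 < q.1 ∨ p = q

lemma pr_antisymm {p q : ℝ × ℝ} (h1 : pr p q) (h2 : pr q p) : p = q := by
  rcases h1 with h1 | h1
  · rcases h2 with h2 | h2
    · exact absurd h1 (not_lt.mpr h2.le)
    · exact h2.symm
  · exact h1

section Lists

variable {ι : Type} (A : Finset ι) (y s : ι → ℝ) (δ : ℝ) (B : ℝ → List ℝ) (H : Finset ℝ)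

/-- the list of (height, slope) pairs after shifting by `δ` -/
noncomputable def PL : List (ℝ × ℝ) :=
  (H.sort (· ≤ ·)).flatMap (fun h => (B h).map (fun σ => (h + σ * δ, σ)))

lemma PL_snd : (PL δ B H).map Prod.snd = (H.sort (· ≤ ·)).flatMap B := by
  unfold PL
  rw [List.map_flatMap]
  congr 1
  funext h
  rw [List.map_map]
  show List.map (fun σ => σ) (B h) = B h
  simp

variable {A y s δ B H}

lemma PL_pairwise
    (hB : ∀ h, ((B h : List ℝ) : Multiset ℝ) = (A.filter (fun i => y i = h)).val.map s)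
    (hBp : ∀ h, (B h).Pairwise (fun σ σ' => σ = σ' ∨ σ * δ < σ' * δ))
    (hmono : ∀ i ∈ A, ∀ j ∈ A, y i < y j → y i + s i * δ < y j + s j * δ) :
    (PL δ B H).Pairwise pr := by
  unfold PL
  rw [List.pairwise_flatMap]
  constructor
  · intro h _
    rw [List.pairwise_map]
    refine (hBp h).imp ?_
    intro σ σ' hs
    rcases hs with rfl | hs
    · exact Or.inr rfl
    · left
      show h + σ * δ < h + σ' * δ
      linarith
  · have hsort : (H.sort (· ≤ ·)).Pairwise (· < ·) := (Finset.sortedLT_sort H).pairwise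
    refine hsort.imp ?_
    intro h h' hlt p hp q hq
    have mem : ∀ h σ, σ ∈ B h → ∃ i ∈ A, y i = h ∧ s i = σ := by
      intro h σ hσ
      have h1 : σ ∈ ((B h : List ℝ) : Multiset ℝ) := by simpa using hσ
      rw [hB h] at h1
      simp only [Multiset.mem_map, Finset.mem_val, Finset.mem_filter] at h1
      obtain ⟨i, ⟨hi, hy⟩, hs⟩ := h1
      exact ⟨i, hi, hy, hs⟩
    rw [List.mem_map] at hp hq
    obtain ⟨σ, hσ, rfl⟩ := hp
    obtain ⟨σ', hσ', rfl⟩ := hq
    obtain ⟨i, hi, hyi, rfl⟩ := mem h σ hσ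
    obtain ⟨j, hj, hyj, rfl⟩ := mem h' σ' hσ'
    left
    show h + s i * δ < h' + s j * δ
    have := hmono i hi j hj (by rw [hyi, hyj]; exact hlt)
    rw [hyi, hyj] at this
    exact this

lemma PL_multiset (hH : ∀ i ∈ A, y i ∈ H)
    (hB : ∀ h, ((B h : List ℝ) : Multiset ℝ) = (A.filter (fun i => y i = h)).val.map s) :
    ((PL δ B H : List (ℝ × ℝ)) : Multiset (ℝ × ℝ)) = A.val.map (fun i => (y i + s i * δ, s i)) := by
  unfold PL
  rw [← Multiset.coe_bind, Finset.sort_eq]
  have h1 : (fun h => (((B h).map (fun σ => (h + σ * δ, σ)) : List (ℝ × ℝ)) : Multiset (ℝ × ℝ)))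
      = fun h => ∑ i ∈ A with y i = h, ({(y i + s i * δ, s i)} : Multiset (ℝ × ℝ)) := by
    funext h
    rw [← Multiset.map_coe, hB h, Multiset.map_map]
    have h2 : ∑ i ∈ A with y i = h, ({(y i + s i * δ, s i)} : Multiset (ℝ × ℝ))
        = ((A.filter (fun i => y i = h)).val.map (fun i => (y i + s i * δ, s i))) := by
      rw [Finset.sum, ← Multiset.sum_map_singleton
        ((A.filter (fun i => y i = h)).val.map (fun i => (y i + s i * δ, s i))), Multiset.map_map]
      rfl
    rw [h2]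
    apply Multiset.map_congr rfl
    intro i hi
    simp only [Finset.mem_val, Finset.mem_filter] at hi
    simp [hi.2]
  rw [h1]
  have h3 : H.val.bind (fun h => ∑ i ∈ A with y i = h, ({(y i + s i * δ, s i)} : Multiset (ℝ × ℝ)))
      = ∑ h ∈ H, ∑ i ∈ A with y i = h, ({(y i + s i * δ, s i)} : Multiset (ℝ × ℝ)) := rfl
  rw [h3, Finset.sum_fiberwise_of_maps_to hH, Finset.sum,
    ← Multiset.sum_map_singleton (A.val.map (fun i => (y i + s i * δ, s i))), Multiset.map_map]
  rfl

end Lists

/-- a chain replacing the blocks at all heights one after the other -/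
lemma chain_flatMap (B B' : ℝ → List ℝ) (r : ℝ → Prop) (hm : ∀ h, Mv (B h) (B' h))
    (hr : ∀ h, r h → B h ≠ B' h ∧ ∃ x ∈ B h ++ B' h, |x| ≤ 1) (l : List ℝ) :
    ∀ X : List ℝ, Chn GS (X ++ l.flatMap B) (X ++ l.flatMap B') (l.countP (fun h => decide (r h))) := by
  induction l with
  | nil => intro X; simpa using Chn.nil X
  | cons h l ih =>
    intro X
    have h1 := ih (X ++ B' h)
    have h2 : GS (X ++ (h :: l).flatMap B) (X ++ B' h ++ l.flatMap B) (if r h then 1 else 0) := by
      refine ⟨X, B h, B' h, l.flatMap B, by simp, rfl, hm h, ?_⟩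
      by_cases hrh : r h
      · right
        exact ⟨by simp [hrh], hr h hrh⟩
      · left; simp [hrh]
    have h3 := Chn.cons h2 h1
    have h4 : (h :: l).countP (fun h => decide (r h)) =
        (if r h then 1 else 0) + l.countP (fun h => decide (r h)) := by
      rw [List.countP_cons]
      by_cases hrh : r h <;> simp [hrh, add_comm]
    rw [h4]
    simpa using h3

lemma all_eq_of_pairwise {l : List ℝ} (h : l.Pairwise (fun x y => x = y)) :
    ∀ x ∈ l, ∀ y ∈ l, x = y := by
  induction l with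
  | nil => simp
  | cons a l ih =>
    rw [List.pairwise_cons] at h
    intro x hx y hy
    rcases List.mem_cons.mp hx with hx | hx
    · rcases List.mem_cons.mp hy with hy | hy
      · rw [hx, hy]
      · rw [hx]; exact h.1 y hy
    · rcases List.mem_cons.mp hy with hy | hy
      · rw [hy]; exact (h.1 x hx).symm
      · exact ih h.2 x hx y hy

/-- A finite system of non-vertical segments `y = s i * x + t i`, `a i ≤ x ≤ b i`, in the slab
`-X ≤ x ≤ X`, balanced at every point of the open slab. -/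
structure Slab (ι : Type) [Fintype ι] where
  a : ι → ℝ
  b : ι → ℝ
  s : ι → ℝ
  t : ι → ℝ
  X : ℝ
  hab : ∀ i, a i < b i
  ha : ∀ i, -X ≤ a i
  hb : ∀ i, b i ≤ X
  balc : ∀ x y, -X < x → x < X →
    ∑ i with (a i = x ∧ s i * x + t i = y), co (s i) =
    ∑ i with (b i = x ∧ s i * x + t i = y), co (s i)
  bals : ∀ x y, -X < x → x < X →
    ∑ i with (a i = x ∧ s i * x + t i = y), si (s i) =
    ∑ i with (b i = x ∧ s i * x + t i = y), si (s i)

namespace Slab

variable {ι : Type} [Fintype ι] (S : Slab ι)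

/-- height at `x` -/
abbrev ht (i : ι) (x : ℝ) : ℝ := S.s i * x + S.t i

noncomputable def hts (c : ℝ) : Finset ℝ := Finset.univ.image (fun i => S.ht i c)

/-- active just after `c` -/
noncomputable def Ap (c : ℝ) : Finset ι := Finset.univ.filter (fun i => S.a i ≤ c ∧ c < S.b i)
/-- active just before `c` -/
noncomputable def Am (c : ℝ) : Finset ι := Finset.univ.filter (fun i => S.a i < c ∧ c ≤ S.b i)

noncomputable def Bp (c h : ℝ) : List ℝ :=
  Multiset.sort (((S.Ap c).filter (fun i => S.ht i c = h)).val.map S.s) (· ≤ ·)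
noncomputable def Bm (c h : ℝ) : List ℝ :=
  (Multiset.sort (((S.Am c).filter (fun i => S.ht i c = h)).val.map S.s) (· ≤ ·)).reverse

lemma Bp_coe (c h : ℝ) : ((S.Bp c h : List ℝ) : Multiset ℝ) =
    ((S.Ap c).filter (fun i => S.ht i c = h)).val.map S.s := by
  unfold Bp; rw [Multiset.sort_eq]

lemma Bm_coe (c h : ℝ) : ((S.Bm c h : List ℝ) : Multiset ℝ) =
    ((S.Am c).filter (fun i => S.ht i c = h)).val.map S.s := by
  unfold Bm; rw [Multiset.coe_reverse, Multiset.sort_eq]

lemma Bp_sorted (c h : ℝ) : (S.Bp c h).Pairwise (· ≤ ·) := by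
  unfold Bp; exact Multiset.pairwise_sort _ _

lemma Bm_sorted (c h : ℝ) : (S.Bm c h).Pairwise (· ≥ ·) := by
  unfold Bm
  rw [List.pairwise_reverse]
  exact Multiset.pairwise_sort _ _

noncomputable def Wp (c : ℝ) : List ℝ := ((S.hts c).sort (· ≤ ·)).flatMap (S.Bp c)
noncomputable def Wm (c : ℝ) : List ℝ := ((S.hts c).sort (· ≤ ·)).flatMap (S.Bm c)

omit [Fintype ι] in
lemma sum_list_eq {L : List ℝ} {F : Finset ι} (f : ℝ → ℝ) {s : ι → ℝ}
    (h : ((L : List ℝ) : Multiset ℝ) = F.val.map s) : (L.map f).sum = ∑ i ∈ F, f (s i) := by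
  have h1 : (L.map f).sum = (((L : List ℝ) : Multiset ℝ).map f).sum := by simp
  rw [h1, h, Multiset.map_map]
  rfl

lemma mv (c h : ℝ) (h1 : -S.X < c) (h2 : c < S.X) : Mv (S.Bm c h) (S.Bp c h) := by
  have key : ∀ f : ℝ → ℝ, (∑ i with (S.a i = c ∧ S.s i * c + S.t i = h), f (S.s i) =
      ∑ i with (S.b i = c ∧ S.s i * c + S.t i = h), f (S.s i)) →
      ((S.Bm c h).map f).sum = ((S.Bp c h).map f).sum := by
    intro f hf
    rw [sum_list_eq f (S.Bm_coe c h), sum_list_eq f (S.Bp_coe c h)]
    have e1 : (S.Am c).filter (fun i => S.ht i c = h) =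
        (Finset.univ.filter (fun i => S.a i < c ∧ c < S.b i ∧ S.ht i c = h)) ∪
        (Finset.univ.filter (fun i => S.b i = c ∧ S.s i * c + S.t i = h)) := by
      ext i
      have hab := S.hab i
      simp only [Am, ht, Finset.mem_filter, Finset.mem_univ, true_and, Finset.mem_union]
      constructor
      · rintro ⟨⟨h3, h4⟩, h5⟩
        rcases h4.lt_or_eq with h4 | h4
        · exact Or.inl ⟨h3, h4, h5⟩
        · exact Or.inr ⟨h4.symm, h5⟩
      · rintro (⟨h3, h4, h5⟩ | ⟨h4, h5⟩)
        · exact ⟨⟨h3, h4.le⟩, h5⟩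
        · exact ⟨⟨by linarith, h4.ge⟩, h5⟩
    have e2 : (S.Ap c).filter (fun i => S.ht i c = h) =
        (Finset.univ.filter (fun i => S.a i < c ∧ c < S.b i ∧ S.ht i c = h)) ∪
        (Finset.univ.filter (fun i => S.a i = c ∧ S.s i * c + S.t i = h)) := by
      ext i
      have hab := S.hab i
      simp only [Ap, ht, Finset.mem_filter, Finset.mem_univ, true_and, Finset.mem_union]
      constructor
      · rintro ⟨⟨h3, h4⟩, h5⟩
        rcases h3.lt_or_eq with h3 | h3
        · exact Or.inl ⟨h3, h4, h5⟩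
        · exact Or.inr ⟨h3, h5⟩
      · rintro (⟨h3, h4, h5⟩ | ⟨h4, h5⟩)
        · exact ⟨⟨h3.le, h4⟩, h5⟩
        · exact ⟨⟨h4.le, by linarith⟩, h5⟩
    rw [e1, e2, Finset.sum_union, Finset.sum_union, hf]
    · rw [Finset.disjoint_left]
      intro i hi hi'
      simp only [Finset.mem_filter, Finset.mem_univ, true_and] at hi hi'
      linarith
    · rw [Finset.disjoint_left]
      intro i hi hi'
      simp only [Finset.mem_filter, Finset.mem_univ, true_and] at hi hi'
      linarith
  exact ⟨S.Bm_sorted c h, S.Bp_sorted c h, key co (S.balc c h h1 h2), key si (S.bals c h h1 h2)⟩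

/-- relevant height -/
def rel (c h : ℝ) : Prop := ∃ i j, S.a i ≤ c ∧ c ≤ S.b i ∧ S.ht i c = h ∧
  S.a j ≤ c ∧ c ≤ S.b j ∧ S.ht j c = h ∧ S.s i ≠ S.s j ∧ |S.s i| ≤ 1

lemma rel_spec (c h : ℝ) (hr : S.rel c h) :
    S.Bm c h ≠ S.Bp c h ∧ ∃ x ∈ S.Bm c h ++ S.Bp c h, |x| ≤ 1 := by
  have mem : ∀ i, S.a i ≤ c → c ≤ S.b i → S.ht i c = h → S.s i ∈ S.Bm c h ∨ S.s i ∈ S.Bp c h := by
    intro i h1 h2 h3
    have hab := S.hab i
    rcases h1.lt_or_eq with h1' | h1'
    · left
      have : S.s i ∈ ((S.Bm c h : List ℝ) : Multiset ℝ) := by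
        rw [S.Bm_coe, Multiset.mem_map]
        exact ⟨i, by simp [Am, h1', h2, h3], rfl⟩
      simpa using this
    · right
      have : S.s i ∈ ((S.Bp c h : List ℝ) : Multiset ℝ) := by
        rw [S.Bp_coe, Multiset.mem_map]
        refine ⟨i, ?_, rfl⟩
        have : c < S.b i := by linarith
        simp [Ap, h1, this, h3]
      simpa using this
  obtain ⟨i, j, h1, h2, h3, h4, h5, h6, h7, h8⟩ := hr
  constructor
  · intro hE
    have s1 := S.Bm_sorted c h
    have s2 := S.Bp_sorted c h
    rw [hE] at s1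
    have all : ∀ x ∈ S.Bp c h, ∀ y ∈ S.Bp c h, x = y := by
      have s3 : (S.Bp c h).Pairwise (fun x y => x = y) :=
        (s1.and s2).imp (fun {a b} hab => le_antisymm hab.2 hab.1)
      intro x hx y hy
      exact all_eq_of_pairwise s3 x hx y hy
    have hi := mem i h1 h2 h3
    have hj := mem j h4 h5 h6
    rw [hE, or_self] at hi hj
    exact h7 (all _ hi _ hj)
  · refine ⟨S.s i, ?_, h8⟩
    rw [List.mem_append]
    exact mem i h1 h2 h3

/-- number of relevant heights at `c` -/
noncomputable def nrel (c : ℝ) : ℕ := ((S.hts c).filter (fun h => S.rel c h)).card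

lemma chain_event (c : ℝ) (h1 : -S.X < c) (h2 : c < S.X) :
    Chn GS (S.Wm c) (S.Wp c) (S.nrel c) := by
  have := chain_flatMap (S.Bm c) (S.Bp c) (S.rel c) (fun h => S.mv c h h1 h2)
    (fun h hr => S.rel_spec c h hr) ((S.hts c).sort (· ≤ ·)) []
  have h3 : ((S.hts c).sort (· ≤ ·)).countP (fun h => decide (S.rel c h)) = S.nrel c := by
    unfold nrel
    rw [← Multiset.coe_countP, Finset.sort_eq, Multiset.countP_eq_card_filter]
    congr 1
  rw [h3] at this
  simpa [Wm, Wp] using this

/-- all event abscissas -/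
noncomputable def ev : Finset ℝ :=
  ({-S.X, S.X} ∪ Finset.univ.image S.a ∪ Finset.univ.image S.b ∪
    Finset.univ.image (fun p : ι × ι => (S.t p.2 - S.t p.1) / (S.s p.1 - S.s p.2))).filter
    (fun x => -S.X ≤ x ∧ x ≤ S.X)

lemma mem_ev_cross {i j : ι} {x : ℝ} (h1 : -S.X ≤ x) (h2 : x ≤ S.X) (hs : S.s i ≠ S.s j)
    (h : S.ht i x = S.ht j x) : x ∈ S.ev := by
  unfold ev
  rw [Finset.mem_filter]
  refine ⟨?_, h1, h2⟩
  simp only [Finset.mem_union]
  right
  rw [Finset.mem_image]
  refine ⟨(i, j), Finset.mem_univ _, ?_⟩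
  have : S.s i - S.s j ≠ 0 := sub_ne_zero.mpr hs
  simp only
  rw [div_eq_iff this]
  unfold ht at h
  linarith

lemma a_mem_ev (i : ι) : S.a i ∈ S.ev := by
  unfold ev
  rw [Finset.mem_filter]
  refine ⟨?_, S.ha i, (S.hab i).le.trans (S.hb i)⟩
  simp

lemma b_mem_ev (i : ι) : S.b i ∈ S.ev := by
  unfold ev
  rw [Finset.mem_filter]
  refine ⟨?_, (S.ha i).trans (S.hab i).le, S.hb i⟩
  simp

/-- two consecutive events -/
def Consec (c c' : ℝ) : Prop := -S.X ≤ c ∧ c < c' ∧ c' ≤ S.X ∧ ∀ x ∈ S.ev, ¬ (c < x ∧ x < c')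

lemma Ap_eq_Am {c c' : ℝ} (h : S.Consec c c') : S.Ap c = S.Am c' := by
  obtain ⟨h1, h2, h3, h4⟩ := h
  ext i
  simp only [Ap, Am, Finset.mem_filter, Finset.mem_univ, true_and]
  constructor
  · rintro ⟨h5, h6⟩
    refine ⟨by linarith, ?_⟩
    by_contra hcon
    push Not at hcon
    exact h4 _ (S.b_mem_ev i) ⟨h6, hcon⟩
  · rintro ⟨h5, h6⟩
    refine ⟨?_, by linarith⟩
    by_contra hcon
    push Not at hcon
    exact h4 _ (S.a_mem_ev i) ⟨hcon, h5⟩

/-- no crossing strictly between two consecutive events -/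
lemma no_cross {c c' x y : ℝ} (h : S.Consec c c') (hx : c ≤ x ∧ x ≤ c') (hy : c < y ∧ y < c')
    {i j : ι} (hij : S.ht i x < S.ht j x) : S.ht i y < S.ht j y := by
  obtain ⟨h1, h2, h3, h4⟩ := h
  by_contra hcon
  push Not at hcon
  have hs : S.s i ≠ S.s j := by
    intro hs
    unfold ht at hij hcon
    rw [hs] at hij hcon
    linarith
  have hs' : S.s i - S.s j ≠ 0 := sub_ne_zero.mpr hs
  set z := (S.t j - S.t i) / (S.s i - S.s j) with hz
  have hz' : S.ht i z = S.ht j z := by
    have : z * (S.s i - S.s j) = S.t j - S.t i := by rw [hz]; field_simp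
    unfold ht
    linarith
  -- difference is linear: d w = (s i - s j) * (w - z)
  have hd : ∀ w, S.ht i w - S.ht j w = (S.s i - S.s j) * (w - z) := by
    intro w
    have e : S.ht i w - S.ht j w - (S.ht i z - S.ht j z) = (S.s i - S.s j) * (w - z) := by
      unfold ht; ring
    rw [← e, hz']; ring
  have hdx := hd x
  have hdy := hd y
  have hzz : c < z ∧ z < c' := by
    rcases lt_or_gt_of_ne hs' with hneg | hpos
    · have e1 : 0 < x - z := by
        by_contra hc
        push Not at hc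
        nlinarith
      have e2 : y - z ≤ 0 := by
        by_contra hc
        push Not at hc
        nlinarith
      constructor <;> linarith [hx.1, hx.2, hy.1, hy.2]
    · have e1 : x - z < 0 := by
        by_contra hc
        push Not at hc
        nlinarith
      have e2 : 0 ≤ y - z := by
        by_contra hc
        push Not at hc
        nlinarith
      constructor <;> linarith [hx.1, hx.2, hy.1, hy.2]
  exact h4 z (S.mem_ev_cross (by linarith) (by linarith) hs hz') hzz

lemma Wp_eq_Wm {c c' : ℝ} (h : S.Consec c c') : S.Wp c = S.Wm c' := by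
  have hAA := S.Ap_eq_Am h
  obtain ⟨h1, h2, h3, h4⟩ := id h
  set m := (c + c') / 2 with hm
  have hm1 : c < m := by rw [hm]; linarith
  have hm2 : m < c' := by rw [hm]; linarith
  have e1 := PL_snd (m - c) (S.Bp c) (S.hts c)
  have e2 := PL_snd (m - c') (S.Bm c') (S.hts c')
  have hH : ∀ x, ∀ A : Finset ι, ∀ i ∈ A, S.ht i x ∈ S.hts x := by
    intro x A i _
    unfold hts
    rw [Finset.mem_image]
    exact ⟨i, Finset.mem_univ _, rfl⟩
  have hval : ∀ x i, S.ht i x + S.s i * (m - x) = S.ht i m := by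
    intro x i; unfold ht; ring
  have p1 : (PL (m - c) (S.Bp c) (S.hts c)).Pairwise pr := by
    apply PL_pairwise (A := S.Ap c) (y := fun i => S.ht i c) (s := S.s) (S.Bp_coe c)
    · intro h
      refine (S.Bp_sorted c h).imp ?_
      intro σ σ' hle
      rcases hle.lt_or_eq with hlt | heq
      · right
        exact mul_lt_mul_of_pos_right hlt (by linarith)
      · exact Or.inl heq
    · intro i _ j _ hij
      rw [hval, hval]
      exact S.no_cross h ⟨le_refl _, h2.le⟩ ⟨hm1, hm2⟩ hij
  have p2 : (PL (m - c') (S.Bm c') (S.hts c')).Pairwise pr := by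
    apply PL_pairwise (A := S.Am c') (y := fun i => S.ht i c') (s := S.s) (S.Bm_coe c')
    · intro h
      refine (S.Bm_sorted c' h).imp ?_
      intro σ σ' hle
      rcases hle.lt_or_eq with hlt | heq
      · right
        exact mul_lt_mul_of_neg_right hlt (by linarith)
      · exact Or.inl heq.symm
    · intro i _ j _ hij
      rw [hval, hval]
      exact S.no_cross h ⟨h2.le, le_refl _⟩ ⟨hm1, hm2⟩ hij
  have m1 := PL_multiset (δ := m - c) (A := S.Ap c) (y := fun i => S.ht i c) (s := S.s)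
    (hH c _) (S.Bp_coe c)
  have m2 := PL_multiset (δ := m - c') (A := S.Am c') (y := fun i => S.ht i c') (s := S.s)
    (hH c' _) (S.Bm_coe c')
  simp only [hval] at m1 m2
  rw [hAA, ← m2] at m1
  have hperm : (PL (m - c) (S.Bp c) (S.hts c)).Perm (PL (m - c') (S.Bm c') (S.hts c')) :=
    Multiset.coe_eq_coe.mp m1
  have heq := List.Perm.eq_of_pairwise (fun a b _ _ hab hba => pr_antisymm hab hba) p1 p2 hperm
  unfold Wp Wm
  rw [← e1, ← e2, heq]

lemma length_Wp (c : ℝ) : (S.Wp c).length = (S.Ap c).card := by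
  have e1 := PL_snd 0 (S.Bp c) (S.hts c)
  have hH : ∀ i ∈ S.Ap c, S.ht i c ∈ S.hts c := by
    intro i _
    unfold hts
    rw [Finset.mem_image]
    exact ⟨i, Finset.mem_univ _, rfl⟩
  have m1 := PL_multiset (δ := 0) (A := S.Ap c) (y := fun i => S.ht i c) (s := S.s)
    hH (S.Bp_coe c)
  unfold Wp
  rw [← e1, List.length_map]
  have := congrArg Multiset.card m1
  simpa using this

lemma length_Wm (c : ℝ) : (S.Wm c).length = (S.Am c).card := by
  have e1 := PL_snd 0 (S.Bm c) (S.hts c)
  have hH : ∀ i ∈ S.Am c, S.ht i c ∈ S.hts c := by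
    intro i _
    unfold hts
    rw [Finset.mem_image]
    exact ⟨i, Finset.mem_univ _, rfl⟩
  have m1 := PL_multiset (δ := 0) (A := S.Am c) (y := fun i => S.ht i c) (s := S.s)
    hH (S.Bm_coe c)
  unfold Wm
  rw [← e1, List.length_map]
  have := congrArg Multiset.card m1
  simpa using this

/-- the chain from `c` to the right end -/
lemma chain_from (n : ℕ) : ∀ c ∈ S.ev, c < S.X → (S.ev.filter (fun x => c < x)).card = n →
    Chn GS (S.Wp c) (S.Wm S.X) (∑ x ∈ S.ev with (c < x ∧ x < S.X), S.nrel x) := by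
  induction n using Nat.strong_induction_on with
  | _ n ih =>
    intro c hc hcX hn
    have hcX' : -S.X ≤ c := by
      unfold ev at hc
      exact (Finset.mem_filter.mp hc).2.1
    have hXev : S.X ∈ S.ev := by
      unfold ev
      rw [Finset.mem_filter]
      exact ⟨by simp, by linarith, le_refl _⟩
    have hne : (S.ev.filter (fun x => c < x)).Nonempty := ⟨S.X, by simp [hXev, hcX]⟩
    set c1 := (S.ev.filter (fun x => c < x)).min' hne with hc1
    have hc1m : c1 ∈ S.ev.filter (fun x => c < x) := Finset.min'_mem _ _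
    rw [Finset.mem_filter] at hc1m
    have hmin : ∀ x ∈ S.ev, c < x → c1 ≤ x := by
      intro x hx hcx
      exact Finset.min'_le _ _ (by simp [hx, hcx])
    have hle : c1 ≤ S.X := hmin _ hXev hcX
    have hcon : S.Consec c c1 := ⟨hcX', hc1m.2, hle, fun x hx hxx => by
      have := hmin x hx hxx.1
      linarith [hxx.2]⟩
    rw [S.Wp_eq_Wm hcon]
    rcases hle.lt_or_eq with hlt | heq
    · have h1 := S.chain_event c1 (by linarith [hc1m.2]) hlt
      have hsub : S.ev.filter (fun x => c1 < x) ⊂ S.ev.filter (fun x => c < x) := by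
        rw [Finset.ssubset_iff_of_subset]
        · exact ⟨c1, by simp [hc1m.1, hc1m.2], by simp⟩
        · intro x hx
          rw [Finset.mem_filter] at hx ⊢
          exact ⟨hx.1, hc1m.2.trans hx.2⟩
      have h2 := ih _ (by rw [← hn]; exact Finset.card_lt_card hsub) c1 hc1m.1 hlt rfl
      have h3 := h1.trans h2
      have h4 : S.ev.filter (fun x => c < x ∧ x < S.X) =
          insert c1 (S.ev.filter (fun x => c1 < x ∧ x < S.X)) := by
        ext x
        simp only [Finset.mem_filter, Finset.mem_insert]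
        constructor
        · rintro ⟨hx, hx1, hx2⟩
          rcases (hmin x hx hx1).lt_or_eq with h5 | h5
          · exact Or.inr ⟨hx, h5, hx2⟩
          · exact Or.inl h5.symm
        · rintro (rfl | ⟨hx, hx1, hx2⟩)
          · exact ⟨hc1m.1, hc1m.2, hlt⟩
          · exact ⟨hx, hc1m.2.trans hx1, hx2⟩
      rw [h4, Finset.sum_insert (by simp)]
      exact h3
    · have h4 : S.ev.filter (fun x => c < x ∧ x < S.X) = ∅ := by
        apply Finset.filter_eq_empty_iff.mpr
        intro x hx hxx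
        have := hmin x hx hxx.1
        linarith [hxx.2]
      rw [h4, heq]
      simpa using Chn.nil _

/-- **Sweep theorem.** -/
theorem card_relevant_le (hX : -S.X < S.X) {N C : ℕ}
    (hC : ∀ (W W' : List ℝ) (n : ℕ), W.length ≤ N → W'.length ≤ N → Chn GS W W' n → n ≤ C)
    (hL : (Finset.univ.filter (fun i => S.a i = -S.X)).card ≤ N)
    (hR : (Finset.univ.filter (fun i => S.b i = S.X)).card ≤ N)
    (Z : Finset (ℝ × ℝ)) (hZ : ∀ z ∈ Z, -S.X < z.1 ∧ z.1 < S.X ∧ S.rel z.1 z.2) :
    Z.card ≤ C := by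
  have hev : -S.X ∈ S.ev := by
    unfold ev
    rw [Finset.mem_filter]
    exact ⟨by simp, le_refl _, hX.le⟩
  have hch := S.chain_from _ (-S.X) hev hX rfl
  have h1 : (S.Wp (-S.X)).length ≤ N := by
    rw [S.length_Wp]
    refine le_trans (Finset.card_le_card ?_) hL
    intro i hi
    simp only [Ap, Finset.mem_filter, Finset.mem_univ, true_and] at hi ⊢
    exact le_antisymm hi.1 (S.ha i)
  have h2 : (S.Wm S.X).length ≤ N := by
    rw [S.length_Wm]
    refine le_trans (Finset.card_le_card ?_) hR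
    intro i hi
    simp only [Am, Finset.mem_filter, Finset.mem_univ, true_and] at hi ⊢
    exact le_antisymm (S.hb i) hi.2
  have h3 := hC _ _ _ h1 h2 hch
  refine le_trans ?_ h3
  have hsub : Z ⊆ (S.ev.filter (fun x => -S.X < x ∧ x < S.X)).biUnion
      (fun x => ((S.hts x).filter (fun h => S.rel x h)).image (fun h => (x, h))) := by
    intro z hz
    obtain ⟨hz1, hz2, hz3⟩ := hZ z hz
    rw [Finset.mem_biUnion]
    refine ⟨z.1, ?_, ?_⟩
    · rw [Finset.mem_filter]
      refine ⟨?_, hz1, hz2⟩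
      obtain ⟨i, j, _, _, e1, _, _, e2, e3, _⟩ := hz3
      exact S.mem_ev_cross hz1.le hz2.le e3 (e1.trans e2.symm)
    · rw [Finset.mem_image]
      refine ⟨z.2, ?_, rfl⟩
      rw [Finset.mem_filter]
      refine ⟨?_, hz3⟩
      obtain ⟨i, j, _, _, e1, _⟩ := hz3
      unfold hts
      rw [Finset.mem_image]
      exact ⟨i, Finset.mem_univ _, e1⟩
  calc Z.card ≤ _ := Finset.card_le_card hsub
    _ ≤ ∑ x ∈ S.ev.filter (fun x => -S.X < x ∧ x < S.X),
        (((S.hts x).filter (fun h => S.rel x h)).image (fun h => (x, h))).card :=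
      Finset.card_biUnion_le
    _ ≤ _ := by
      apply Finset.sum_le_sum
      intro x _
      exact Finset.card_image_le

end Slab

end Pool.Agent.GeoNet
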