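import Mathlib

set_option autoImplicit false

namespace Pool.Agent.GeoNet

/-- horizontal component of the unit vector of slope `s` pointing to the right -/
noncomputable def co (s : ℝ) : ℝ := 1 / Real.sqrt (1 + s ^ 2)

/-- vertical component of the unit vector of slope `s` pointing to the right -/
noncomputable def si (s : ℝ) : ℝ := s * co s

lemma one_add_sq_pos (s : ℝ) : 0 < 1 + s ^ 2 := by positivity

lemma co_pos (s : ℝ) : 0 < co s := by
  unfold co
  have := Real.sqrt_pos.mpr (one_add_sq_pos s)
  positivity

lemma co_sq (s : ℝ) : co s ^ 2 = 1 / (1 + s ^ 2) := by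
  unfold co
  rw [div_pow, Real.sq_sqrt (one_add_sq_pos s).le, one_pow]

lemma co_sq_mul (s : ℝ) : co s ^ 2 * (1 + s ^ 2) = 1 := by
  rw [co_sq]; field_simp [(one_add_sq_pos s).ne']

lemma co_le_one (s : ℝ) : co s ≤ 1 := by
  have h1 := co_sq_mul s
  have h2 := co_pos s
  nlinarith [sq_nonneg s, sq_nonneg (co s * s)]

lemma co_sq_add_si_sq (s : ℝ) : co s ^ 2 + si s ^ 2 = 1 := by
  unfold si
  have := co_sq_mul s
  nlinarith

/-- lower bound for `co` -/
lemma le_co {s c t : ℝ} (hs : |s| ≤ t) (hc : 0 ≤ c) (h : c ^ 2 * (1 + t ^ 2) ≤ 1) : c ≤ co s := by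
  have h1 := co_sq_mul s
  have h2 := co_pos s
  have h3 : s ^ 2 ≤ t ^ 2 := by
    rw [← sq_abs s]
    exact pow_le_pow_left₀ (abs_nonneg s) hs 2
  by_contra hcon
  push Not at hcon
  have h4 : co s ^ 2 < c ^ 2 := by nlinarith
  nlinarith [one_add_sq_pos s]

noncomputable def csum (L : List ℝ) : ℝ := (L.map co).sum
noncomputable def ssum (L : List ℝ) : ℝ := (L.map si).sum

@[simp] lemma csum_nil : csum [] = 0 := by simp [csum]
@[simp] lemma ssum_nil : ssum [] = 0 := by simp [ssum]
@[simp] lemma csum_cons (a : ℝ) (L : List ℝ) : csum (a :: L) = co a + csum L := by simp [csum]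
@[simp] lemma ssum_cons (a : ℝ) (L : List ℝ) : ssum (a :: L) = si a + ssum L := by simp [ssum]
@[simp] lemma csum_append (L M : List ℝ) : csum (L ++ M) = csum L + csum M := by simp [csum]
@[simp] lemma ssum_append (L M : List ℝ) : ssum (L ++ M) = ssum L + ssum M := by simp [ssum]

lemma csum_nonneg (L : List ℝ) : 0 ≤ csum L := by
  induction L with
  | nil => simp
  | cons a L ih => rw [csum_cons]; have := co_pos a; linarith

lemma csum_pos {L : List ℝ} (h : L ≠ []) : 0 < csum L := by
  cases L with
  | nil => exact absurd rfl h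
  | cons a L => rw [csum_cons]; have := co_pos a; have := csum_nonneg L; linarith

lemma co_le_csum {L : List ℝ} {x : ℝ} (h : x ∈ L) : co x ≤ csum L := by
  induction L with
  | nil => simp at h
  | cons a L ih =>
    rw [csum_cons]
    rcases List.mem_cons.mp h with rfl | h
    · have := csum_nonneg L; linarith
    · have := ih h; have := co_pos a; linarith

/-- The area functional. -/
noncomputable def Q : List ℝ → ℝ
  | [] => 0
  | a :: L => (co a * ssum L - si a * csum L) + Q L

@[simp] lemma Q_nil : Q [] = 0 := rfl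
lemma Q_cons (a : ℝ) (L : List ℝ) : Q (a :: L) = (co a * ssum L - si a * csum L) + Q L := rfl

lemma Q_append (L M : List ℝ) :
    Q (L ++ M) = Q L + Q M + (csum L * ssum M - ssum L * csum M) := by
  induction L with
  | nil => simp
  | cons a L ih =>
    rw [List.cons_append, Q_cons, ih, Q_cons]
    simp only [ssum_append, csum_append, ssum_cons, csum_cons]
    ring

/-- sum of `|cross products|` of `a` with the letters of `L`. -/
noncomputable def Dv (a : ℝ) (L : List ℝ) : ℝ := (L.map (fun x => |x - a| * (co a * co x))).sum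

@[simp] lemma Dv_nil (a : ℝ) : Dv a [] = 0 := by simp [Dv]
@[simp] lemma Dv_cons (a b : ℝ) (L : List ℝ) :
    Dv a (b :: L) = |b - a| * (co a * co b) + Dv a L := by simp [Dv]

lemma Dv_nonneg (a : ℝ) (L : List ℝ) : 0 ≤ Dv a L := by
  induction L with
  | nil => simp
  | cons b L ih =>
    rw [Dv_cons]; have := co_pos a; have := co_pos b; have := abs_nonneg (b - a); positivity

lemma Dv_mem {a x : ℝ} {L : List ℝ} (h : x ∈ L) : |x - a| * (co a * co x) ≤ Dv a L := by
  induction L with
  | nil => simp at h
  | cons b L ih =>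
    rw [Dv_cons]
    rcases List.mem_cons.mp h with rfl | h
    · have := Dv_nonneg a L; linarith
    · have := ih h
      have : 0 ≤ |b - a| * (co a * co b) := by
        have := co_pos a; have := co_pos b; have := abs_nonneg (b - a); positivity
      linarith

lemma cross_eq (a x : ℝ) : co a * si x - si a * co x = (x - a) * (co a * co x) := by
  unfold si; ring

lemma abs_cross_le_Dv (a : ℝ) (L : List ℝ) : |co a * ssum L - si a * csum L| ≤ Dv a L := by
  induction L with
  | nil => simp
  | cons b L ih =>
    rw [Dv_cons, ssum_cons, csum_cons]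
    have h1 : co a * (si b + ssum L) - si a * (co b + csum L)
        = (b - a) * (co a * co b) + (co a * ssum L - si a * csum L) := by
      unfold si; ring
    rw [h1]
    have h2 : |(b - a) * (co a * co b)| = |b - a| * (co a * co b) := by
      rw [abs_mul, abs_of_pos (mul_pos (co_pos a) (co_pos b))]
    calc _ ≤ |(b - a) * (co a * co b)| + |co a * ssum L - si a * csum L| := abs_add_le _ _
      _ ≤ _ := by rw [h2]; linarith

/-- total of `|cross products|` over pairs. -/
noncomputable def P : List ℝ → ℝ
  | [] => 0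
  | a :: L => Dv a L + P L

@[simp] lemma P_nil : P [] = 0 := rfl
lemma P_cons (a : ℝ) (L : List ℝ) : P (a :: L) = Dv a L + P L := rfl

lemma P_nonneg (L : List ℝ) : 0 ≤ P L := by
  induction L with
  | nil => simp
  | cons a L ih => rw [P_cons]; have := Dv_nonneg a L; linarith

lemma abs_Q_le_P (L : List ℝ) : |Q L| ≤ P L := by
  induction L with
  | nil => simp
  | cons a L ih =>
    rw [Q_cons, P_cons]
    have := abs_cross_le_Dv a L
    calc _ ≤ |co a * ssum L - si a * csum L| + |Q L| := abs_add_le _ _
      _ ≤ _ := by linarith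

lemma cross_eq_Dv_of_le {a : ℝ} {L : List ℝ} (h : ∀ x ∈ L, a ≤ x) :
    co a * ssum L - si a * csum L = Dv a L := by
  induction L with
  | nil => simp
  | cons b L ih =>
    have h1 := ih (fun x hx => h x (List.mem_cons_of_mem _ hx))
    have h2 : a ≤ b := h b (by simp)
    rw [Dv_cons, ssum_cons, csum_cons, abs_of_nonneg (by linarith)]
    have : co a * (si b + ssum L) - si a * (co b + csum L)
        = (b - a) * (co a * co b) + (co a * ssum L - si a * csum L) := by
      unfold si; ring
    rw [this, h1]

lemma cross_eq_neg_Dv_of_ge {a : ℝ} {L : List ℝ} (h : ∀ x ∈ L, x ≤ a) :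
    co a * ssum L - si a * csum L = - Dv a L := by
  induction L with
  | nil => simp
  | cons b L ih =>
    have h1 := ih (fun x hx => h x (List.mem_cons_of_mem _ hx))
    have h2 : b ≤ a := h b (by simp)
    rw [Dv_cons, ssum_cons, csum_cons, abs_of_nonpos (by linarith)]
    have : co a * (si b + ssum L) - si a * (co b + csum L)
        = (b - a) * (co a * co b) + (co a * ssum L - si a * csum L) := by
      unfold si; ring
    rw [this, h1]
    ring

lemma Q_eq_P {L : List ℝ} (h : L.Pairwise (· ≤ ·)) : Q L = P L := by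
  induction L with
  | nil => simp
  | cons a L ih =>
    rw [List.pairwise_cons] at h
    rw [Q_cons, P_cons, ih h.2, cross_eq_Dv_of_le h.1]

lemma Q_eq_neg_P {L : List ℝ} (h : L.Pairwise (· ≥ ·)) : Q L = - P L := by
  induction L with
  | nil => simp
  | cons a L ih =>
    rw [List.pairwise_cons] at h
    rw [Q_cons, P_cons, ih h.2, cross_eq_neg_Dv_of_ge h.1]
    ring

/-- each letter is nearly parallel to the total vector, up to the area. -/
lemma cross_le_P {L : List ℝ} {x : ℝ} (h : x ∈ L) :
    |co x * ssum L - si x * csum L| ≤ P L := by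
  induction L with
  | nil => simp at h
  | cons a L ih =>
    rw [P_cons, ssum_cons, csum_cons]
    rcases List.mem_cons.mp h with rfl | h
    · have h1 : co x * (si x + ssum L) - si x * (co x + csum L)
          = co x * ssum L - si x * csum L := by ring
      rw [h1]
      have := abs_cross_le_Dv x L
      have := P_nonneg L
      linarith
    · have h1 : co x * (si a + ssum L) - si x * (co a + csum L)
          = (a - x) * (co x * co a) + (co x * ssum L - si x * csum L) := by
        unfold si; ring
      rw [h1]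
      have h2 : |(a - x) * (co x * co a)| = |x - a| * (co a * co x) := by
        rw [abs_mul, abs_of_pos (mul_pos (co_pos x) (co_pos a)), abs_sub_comm, mul_comm (co x)]
      have h3 := ih h
      have h4 := Dv_mem (a := a) h
      calc _ ≤ |(a - x) * (co x * co a)| + |co x * ssum L - si x * csum L| := abs_add_le _ _
        _ ≤ _ := by rw [h2]; linarith

/-- `1 -` scalar product -/
noncomputable def df (x y : ℝ) : ℝ := 1 - (co x * co y + si x * si y)

lemma df_eq (x y : ℝ) : df x y = 1 - (1 + x * y) * (co x * co y) := by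
  unfold df si; ring

lemma cross_sq (x y : ℝ) : ((y - x) * (co x * co y)) ^ 2 = df x y * (2 - df x y) := by
  have h1 := co_sq_mul x
  have h2 := co_sq_mul y
  rw [df_eq]
  have h3 : ((1 + x * y) * (co x * co y)) ^ 2 + ((y - x) * (co x * co y)) ^ 2 = 1 := by
    have : ((1 + x * y) * (co x * co y)) ^ 2 + ((y - x) * (co x * co y)) ^ 2
        = (co x ^ 2 * (1 + x ^ 2)) * (co y ^ 2 * (1 + y ^ 2)) := by ring
    rw [this, h1, h2]; ring
  nlinarith

lemma df_nonneg (x y : ℝ) : 0 ≤ df x y := by
  have h1 := cross_sq x y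
  have h2 := sq_nonneg ((y - x) * (co x * co y))
  by_contra h
  push Not at h
  nlinarith

lemma df_le_two (x y : ℝ) : df x y ≤ 2 := by
  have h1 := cross_sq x y
  have h2 := sq_nonneg ((y - x) * (co x * co y))
  by_contra h
  push Not at h
  nlinarith

lemma df_le_cross {x y : ℝ} (h : 0 ≤ 1 + x * y) : df x y ≤ |y - x| * (co x * co y) := by
  have h1 := cross_sq x y
  have h2 := df_nonneg x y
  have h3 : df x y ≤ 1 := by
    rw [df_eq]
    have := mul_pos (co_pos x) (co_pos y)
    nlinarith [mul_nonneg h this.le]
  have h4 : |y - x| * (co x * co y) = |(y - x) * (co x * co y)| := by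
    rw [abs_mul, abs_of_pos (mul_pos (co_pos x) (co_pos y))]
  rw [h4]
  have h5 : df x y ^ 2 ≤ ((y - x) * (co x * co y)) ^ 2 := by rw [h1]; nlinarith
  exact (le_abs_self _).trans (sq_le_sq.mp h5)

/-- conserved energy -/
noncomputable def En (L : List ℝ) : ℝ := (L.length : ℝ) ^ 2 - csum L ^ 2 - ssum L ^ 2

noncomputable def Dd (a : ℝ) (L : List ℝ) : ℝ := (L.map (fun x => df a x)).sum
@[simp] lemma Dd_nil (a : ℝ) : Dd a [] = 0 := by simp [Dd]
@[simp] lemma Dd_cons (a b : ℝ) (L : List ℝ) : Dd a (b :: L) = df a b + Dd a L := by simp [Dd]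

lemma Dd_eq (a : ℝ) (L : List ℝ) : Dd a L = L.length - (co a * csum L + si a * ssum L) := by
  induction L with
  | nil => simp
  | cons b L ih =>
    rw [Dd_cons, ih, csum_cons, ssum_cons, List.length_cons]
    unfold df
    push_cast
    ring

lemma Dd_nonneg (a : ℝ) (L : List ℝ) : 0 ≤ Dd a L := by
  induction L with
  | nil => simp
  | cons b L ih => rw [Dd_cons]; have := df_nonneg a b; linarith

lemma Dd_mem {a x : ℝ} {L : List ℝ} (h : x ∈ L) : df a x ≤ Dd a L := by
  induction L with
  | nil => simp at h
  | cons b L ih =>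
    rw [Dd_cons]
    rcases List.mem_cons.mp h with rfl | h
    · have := Dd_nonneg a L; linarith
    · have := ih h; have := df_nonneg a b; linarith

@[simp] lemma En_nil : En [] = 0 := by simp [En]
lemma En_cons (a : ℝ) (L : List ℝ) : En (a :: L) = En L + 2 * Dd a L := by
  rw [Dd_eq]
  unfold En
  rw [csum_cons, ssum_cons, List.length_cons]
  have := co_sq_add_si_sq a
  push_cast
  nlinarith

lemma En_nonneg (L : List ℝ) : 0 ≤ En L := by
  induction L with
  | nil => simp
  | cons a L ih => rw [En_cons]; have := Dd_nonneg a L; linarith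

lemma df_le_En {x y : ℝ} {L : List ℝ} (hx : x ∈ L) (hy : y ∈ L) : 2 * df x y ≤ En L := by
  have hself : ∀ z : ℝ, df z z = 0 := by
    intro z
    unfold df
    have := co_sq_add_si_sq z
    nlinarith
  have hsymm : ∀ u v : ℝ, df u v = df v u := by
    intro u v; unfold df; ring
  induction L with
  | nil => simp at hx
  | cons a L ih =>
    rw [En_cons]
    have hE := En_nonneg L
    have hD := Dd_nonneg a L
    rcases List.mem_cons.mp hx with hx1 | hx1
    · rcases List.mem_cons.mp hy with hy1 | hy1
      · rw [hx1, hy1, hself]; linarith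
      · have := Dd_mem (a := a) hy1; rw [hx1]; linarith
    · rcases List.mem_cons.mp hy with hy1 | hy1
      · have := Dd_mem (a := a) hx1
        rw [hy1, hsymm]; linarith
      · have := ih hx1 hy1; linarith

lemma Dd_le_Dv {a : ℝ} {L : List ℝ} (h : ∀ x ∈ L, 0 ≤ 1 + a * x) : Dd a L ≤ Dv a L := by
  induction L with
  | nil => simp
  | cons b L ih =>
    rw [Dd_cons, Dv_cons]
    have h1 := ih (fun x hx => h x (List.mem_cons_of_mem _ hx))
    have h2 := df_le_cross (h b (by simp))
    linarith

lemma En_le_P {L : List ℝ} (h : ∀ x ∈ L, ∀ y ∈ L, 0 ≤ 1 + x * y) : En L ≤ 2 * P L := by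
  induction L with
  | nil => simp
  | cons a L ih =>
    rw [En_cons, P_cons]
    have h1 := ih (fun x hx y hy => h x (List.mem_cons_of_mem _ hx) y (List.mem_cons_of_mem _ hy))
    have h2 := Dd_le_Dv (a := a) (L := L) (fun x hx => h a (by simp) x (List.mem_cons_of_mem _ hx))
    linarith

end Pool.Agent.GeoNet
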